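import Pool.Agent.H76.Planar.Apply
import Pool.Agent.H30.Kerv.Main

/-! Q1 for abelian-by-(finite `p`) coefficient groups, in the form used by the stability theorem. -/

set_option autoImplicit false

namespace Pool.Agent.H76.Planar

open Pool.Agent.H76.Ker Monoid

universe u

theorem abfp_QP (p : ℕ) (hp : p.Prime) {C : Type u} [Group C] (A : Subgroup C) [A.Normal]
    (hA : ∀ a ∈ A, ∀ b ∈ A, a * b = b * a) (e : ℕ) (hcard : Nat.card (C ⧸ A) = p ^ e) :
    QP C (fun m => ¬ (p : ℤ) ∣ m) := by
  intro n w hdet l hl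
  have : Fact p.Prime := ⟨hp⟩
  have h1 : Pool.Agent.H30.Kerv.PO
      ((QuotientGroup.mk' (Subgroup.normalClosure (Set.range w))).comp Coprod.inl)
      (l.map Prod.snd) := by
    refine ⟨l.map fun x => (x.2, QuotientGroup.mk' (Subgroup.normalClosure (Set.range w)) x.1),
      ?_, ?_⟩
    · rw [List.map_map]
      rfl
    · have h2 : QuotientGroup.mk' (Subgroup.normalClosure (Set.range w)) (pc Coprod.inl l) = 1 := by
        rw [← MonoidHom.mem_ker, QuotientGroup.ker_mk']
        exact hl
      rw [← h2, pc, map_list_prod, List.map_map, List.map_map]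
      congr 1
  obtain ⟨L', h2, h3⟩ := Pool.Agent.H30.Kerv.main_list p A hA e hcard w hdet _ h1
  refine ⟨L'.map fun x => (x.2, x.1), ?_, ?_⟩
  · rw [List.map_map]
    exact h2
  · rw [pc, List.map_map]
    exact h3

end Pool.Agent.H76.Planar
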