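import Pool.Agent.H76.Planar.Stab
import Pool.Agent.H76.Ker.Two
import Pool.Agent.H76.Ker.Prime

/-! From lists over `Fin n` to homomorphisms reflecting product-one relations. -/

set_option autoImplicit false

namespace Pool.Agent.H76.Planar

open Pool.Agent.H76.Ker Monoid

universe u v w

section Apply

/-- Exponent sum of the variable `i`. -/
def expJ (C : Type u) [Group C] {J : Type w} [DecidableEq J] (i : J) :
    Coprod C (FreeGroup J) →* Multiplicative ℤ :=
  Coprod.lift (1 : C →* Multiplicative ℤ)
    (FreeGroup.lift fun k => if k = i then Multiplicative.ofAdd (1 : ℤ) else 1)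

@[simp] theorem expJ_inl {C : Type u} [Group C] {J : Type w} [DecidableEq J] (i : J) (c : C) :
    expJ C i (Coprod.inl c) = 1 := by simp [expJ]

@[simp] theorem expJ_inr {C : Type u} [Group C] {J : Type w} [DecidableEq J] (i k : J) :
    expJ C i (Coprod.inr (FreeGroup.of k)) = if k = i then Multiplicative.ofAdd (1 : ℤ) else 1 := by
  simp [expJ]

theorem PX_pull {H : Type*} {C : Type*} [Group H] [Group C] (φ : C →* H) {L : List C} {y : H}
    (h : PX (L.map φ) y) : ∃ l : List (H × C), l.map Prod.snd = L ∧ pc φ l = y := by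
  induction L generalizing y with
  | nil =>
    rw [List.map_nil, PX_nil] at h
    exact ⟨[], rfl, h.symm⟩
  | cons a L ih =>
    rw [List.map_cons] at h
    obtain ⟨c, z, hz, rfl⟩ := PX_cons.mp h
    obtain ⟨l, rfl, rfl⟩ := ih hz
    exact ⟨(c, a) :: l, rfl, by rw [pc_cons]⟩

/-- Q1 for all systems over `C` whose determinant satisfies `P`. -/
def QP (C : Type u) [Group C] (P : ℤ → Prop) : Prop :=
  ∀ (n : ℕ) (w : Fin n → WG C n),
    P (Matrix.of fun i j => Multiplicative.toAdd (expo C n i (w j))).det →
    ∀ l : List (WG C n × C), pc Coprod.inl l ∈ Subgroup.normalClosure (Set.range w) →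
      PX (l.map Prod.snd) 1

theorem QP_of_QK {C : Type u} [Group C] (h : ∀ n : ℕ, QK C n Set.univ) :
    QP C (fun m => m ≠ 0) := fun n w hdet l hl => h n w hdet l (fun _ _ => trivial) hl

/-- If `C` satisfies Q1 for determinants in `P` then every such system over `C` is
conservative. -/
theorem QP_cons {C : Type u} [Group C] {J : Type w} [Fintype J] [DecidableEq J] {P : ℤ → Prop}
    (h : QP C P) (v : J → Coprod C (FreeGroup J))
    (hdet : P (Matrix.of fun i j : J => Multiplicative.toAdd (expJ C i (v j))).det) :
    Cons (hq (Set.range v)) := by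
  intro L hL
  have e := Fintype.equivFin J
  set n := Fintype.card J
  let E : Coprod C (FreeGroup J) →* WG C n := Coprod.map (MonoidHom.id C) (FreeGroup.map e)
  have hL' : PX ((L.map (Coprod.inl : C →* Coprod C (FreeGroup J))).map
      (QuotientGroup.mk' (Subgroup.normalClosure (Set.range v)))) 1 := by
    rw [List.map_map]
    exact hL
  obtain ⟨y, hy, hPy⟩ := PX_lift _ (QuotientGroup.mk'_surjective _) hL'
  rw [← MonoidHom.mem_ker, QuotientGroup.ker_mk'] at hy
  obtain ⟨l, rfl, rfl⟩ := PX_pull _ hPy
  have hexp : ∀ (i : Fin n) (x : Coprod C (FreeGroup J)), expo C n i (E x) = expJ C (e.symm i) x := by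
    intro i x
    have : (expo C n i).comp E = expJ C (e.symm i) := by
      refine Coprod.hom_ext (MonoidHom.ext fun c => ?_) (FreeGroup.ext_hom _ _ fun k => ?_)
      · change expo C n i (Coprod.inl c) = expJ C (e.symm i) (Coprod.inl c)
        rw [expJ_inl]
        exact Pool.Agent.H76.GR.eta_inl C i c
      · change expo C n i (E (Coprod.inr (FreeGroup.of k)))
          = expJ C (e.symm i) (Coprod.inr (FreeGroup.of k))
        have h1 : E (Coprod.inr (FreeGroup.of k)) = Coprod.inr (FreeGroup.of (e k)) := by
          simp [E]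
        rw [h1, expJ_inr]
        have h2 : expo C n i (Coprod.inr (FreeGroup.of (e k)))
            = if e k = i then Multiplicative.ofAdd (1 : ℤ) else 1 :=
          Pool.Agent.H76.GR.eta_var C i (e k)
        rw [h2]
        have h3 : e k = i ↔ k = e.symm i := by
          constructor
          · rintro rfl; simp
          · rintro rfl; simp
        simp only [h3]
    exact DFunLike.congr_fun this x
  have hdet' : P (Matrix.of fun i j : Fin n =>
      Multiplicative.toAdd (expo C n i (E (v (e.symm j))))).det := by
    have h1 : (Matrix.of fun i j : Fin n =>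
        Multiplicative.toAdd (expo C n i (E (v (e.symm j)))))
        = (Matrix.of fun i j : J => Multiplicative.toAdd (expJ C i (v j))).submatrix e.symm e.symm := by
      ext i j
      simp only [Matrix.of_apply, Matrix.submatrix_apply]
      rw [hexp]
    rw [h1, Matrix.det_submatrix_equiv_self]
    exact hdet
  have hmem : pc Coprod.inl (l.map fun x => (E x.1, x.2))
      ∈ Subgroup.normalClosure (Set.range fun j : Fin n => E (v (e.symm j))) := by
    have h1 := pc_map (Coprod.inl : C →* Coprod C (FreeGroup J)) (Coprod.inl : C →* WG C n) E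
      (MonoidHom.id C) (fun g => by simp [E]) l
    have h2 : (l.map fun x => (E x.1, x.2)) = l.map (fun x => (E x.1, MonoidHom.id C x.2)) := rfl
    rw [h2, ← h1]
    have h3 : (Subgroup.normalClosure (Set.range v)).map E
        ≤ Subgroup.normalClosure (Set.range fun j : Fin n => E (v (e.symm j))) := by
      refine le_trans (Subgroup.map_normalClosure_le _ _) ?_
      apply Subgroup.normalClosure_mono
      rintro _ ⟨_, ⟨j, rfl⟩, rfl⟩
      exact ⟨e j, by simp⟩
    exact h3 ⟨_, hy, rfl⟩
  have h4 := h n _ hdet' _ hmem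
  rw [List.map_map] at h4
  exact h4

theorem QK_cons {C : Type u} [Group C] {J : Type w} [Fintype J] [DecidableEq J]
    (h : ∀ n : ℕ, QK C n Set.univ) (v : J → Coprod C (FreeGroup J))
    (hdet : (Matrix.of fun i j : J => Multiplicative.toAdd (expJ C i (v j))).det ≠ 0) :
    Cons (hq (Set.range v)) := QP_cons (QP_of_QK h) v hdet

/-- From `Cons` to product-one relations indexed by `Fin r`. -/
theorem Cons.final {G : Type u} {H : Type v} [Group G] [Group H] {φ : G →* H} (hφ : Cons φ)
    (r : ℕ) (g : Fin r → G)
    (hH : ∃ h : Fin r → H, (List.ofFn (fun i => h i * φ (g i) * (h i)⁻¹)).prod = 1) :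
    ∃ x : Fin r → G, (List.ofFn (fun i => x i * g i * (x i)⁻¹)).prod = 1 := by
  obtain ⟨h, hh⟩ := hH
  have h1 : PX ((List.ofFn g).map φ) 1 := by
    refine ⟨List.ofFn (fun i => (h i, φ (g i))), ?_, ?_⟩
    · rw [List.map_ofFn, List.map_ofFn]
      rfl
    · rw [pc_ofFn]
      exact hh
  obtain ⟨l', hl', hl'1⟩ := hφ _ h1
  have hlen : l'.length = r := by
    have := congrArg List.length hl'
    simpa using this
  subst hlen
  refine ⟨fun i => (l'.get i).1, ?_⟩
  have h2 : List.ofFn (fun i => ((l'.get i).1, g i)) = l' := by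
    have h3 : (fun i : Fin l'.length => ((l'.get i).1, g i)) = l'.get := by
      funext i
      have h4 : (l'.map Prod.snd)[(i : ℕ)]'(by simp) = g i := by
        simp only [hl']
        simp
      rw [List.getElem_map] at h4
      exact Prod.ext rfl h4.symm
    rw [h3, List.ofFn_get]
  rw [← hl'1]
  conv_rhs => rw [← h2]
  rw [pc_ofFn]
  rfl

theorem det_range {C : Type u} {G : Type v} [Group C] [Group G] {J : Type w} [DecidableEq J]
    (f : C →* G) (i : J) (x : Coprod C (FreeGroup J)) :
    expJ G i (Coprod.map f (MonoidHom.id (FreeGroup J)) x) = expJ C i x := by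
  have : (expJ G i).comp (Coprod.map f (MonoidHom.id (FreeGroup J))) = expJ C i := by
    refine Coprod.hom_ext (MonoidHom.ext fun c => ?_) (FreeGroup.ext_hom _ _ fun k => ?_)
    · change expJ G i (Coprod.inl (f c)) = expJ C i (Coprod.inl c)
      rw [expJ_inl, expJ_inl]
    · change expJ G i (Coprod.inr (FreeGroup.of k)) = expJ C i (Coprod.inr (FreeGroup.of k))
      rw [expJ_inr, expJ_inr]
  exact DFunLike.congr_fun this x

/-- Words with coefficients in the image of `f` lift. -/
theorem lift_word {C : Type u} {G : Type v} [Group C] [Group G] {J : Type w}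
    (f : C →* G) (x : Coprod G (FreeGroup J))
    (hx : x ∈ Subgroup.closure (((fun g : G => (Coprod.inl g : Coprod G (FreeGroup J))) ''
      (f.range : Set G)) ∪ Set.range (fun k : J => (Coprod.inr (FreeGroup.of k) :
        Coprod G (FreeGroup J))))) :
    ∃ y : Coprod C (FreeGroup J), Coprod.map f (MonoidHom.id (FreeGroup J)) y = x := by
  induction hx using Subgroup.closure_induction with
  | mem x hx =>
    rcases hx with ⟨_, ⟨c, rfl⟩, rfl⟩ | ⟨k, rfl⟩
    · exact ⟨Coprod.inl c, rfl⟩
    · exact ⟨Coprod.inr (FreeGroup.of k), rfl⟩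
  | one => exact ⟨1, map_one _⟩
  | mul x y _ _ hx hy =>
    obtain ⟨a, rfl⟩ := hx
    obtain ⟨b, rfl⟩ := hy
    exact ⟨a * b, map_mul _ _ _⟩
  | inv x _ hx =>
    obtain ⟨a, rfl⟩ := hx
    exact ⟨a⁻¹, map_inv _ _⟩

/-- **Q1 for arbitrary groups, with coefficients from a group satisfying Q1.** -/
theorem coeff_cons {C : Type u} {G : Type v} [Group C] [Group G] {J : Type w} [Fintype J]
    [DecidableEq J] (f : C →* G) {P : ℤ → Prop} (h : QP C P) (w : J → Coprod G (FreeGroup J))
    (hdet : P (Matrix.of fun i j : J => Multiplicative.toAdd (expJ G i (w j))).det)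
    (hw : ∀ j, w j ∈ Subgroup.closure (((fun g : G => (Coprod.inl g : Coprod G (FreeGroup J))) ''
      (f.range : Set G)) ∪ Set.range (fun k : J => (Coprod.inr (FreeGroup.of k) :
        Coprod G (FreeGroup J))))) :
    Cons (hq (Set.range w)) := by
  choose v hv using fun j => lift_word f (w j) (hw j)
  have hd : P (Matrix.of fun i j : J => Multiplicative.toAdd (expJ C i (v j))).det := by
    have : (Matrix.of fun i j : J => Multiplicative.toAdd (expJ C i (v j)))
        = (Matrix.of fun i j : J => Multiplicative.toAdd (expJ G i (w j))) := by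
      ext i j
      simp only [Matrix.of_apply]
      rw [← hv j, det_range]
    rw [this]
    exact hdet
  have h1 := Cons.stab f (Set.range v) (QP_cons h v hd)
  have h2 : Coprod.map f (MonoidHom.id (FreeGroup J)) '' Set.range v = Set.range w := by
    rw [← Set.range_comp]
    congr 1
    funext j
    exact hv j
  rw [h2] at h1
  exact h1

end Apply

end Pool.Agent.H76.Planar
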