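import Pool.Agent.H76.Planar.Stab

/-! Planar decompositions in which all but at most two of the boundary words have central value. -/

set_option autoImplicit false

namespace Pool.Agent.H76.Planar

open Pool.Agent.H76.Ker Monoid

universe u v w x

section Central

variable {G : Type u} [Group G]

theorem PX_central {L : List G} (hL : ∀ z ∈ L, z ∈ Subgroup.center G) {y : G} (h : PX L y) :
    y = L.prod := by
  induction L generalizing y with
  | nil => simpa using PX_nil.mp h
  | cons a L ih =>
    obtain ⟨c, z, hz, rfl⟩ := PX_cons.mp h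
    rw [ih (fun z hz => hL z (List.mem_cons_of_mem _ hz)) hz, List.prod_cons]
    have h1 := Subgroup.mem_center_iff.mp (hL a List.mem_cons_self) c
    rw [h1]
    group

theorem cen_of_PX {L : List G} (hL : ∀ z ∈ L, z ∈ Subgroup.center G) {a : G}
    (h : PX (a :: L) 1) : a ∈ Subgroup.center G := by
  obtain ⟨c, y, hy, h1⟩ := PX_cons.mp h
  have h2 : y ∈ Subgroup.center G := by
    rw [PX_central hL hy]
    exact Subgroup.list_prod_mem _ hL
  have h3 : a = c⁻¹ * y⁻¹ * c⁻¹⁻¹ := by
    have : y = (c * a * c⁻¹)⁻¹ := eq_inv_of_mul_eq_one_right h1.symm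
    rw [this]; group
  rw [h3]
  exact (inferInstance : (Subgroup.center G).Normal).conj_mem _ ((Subgroup.center G).inv_mem h2) _

end Central

section Extract

variable {C : Type w} {B : Type u} {X : Type v} {G : Type x} [Group C] [Group B] [Group G]
  (ι : C →* B) (f : C →* G) (θ : X → G)

/-- The value in `G`. -/
def ev : Coprod C (FreeGroup X) →* G := Coprod.lift f (FreeGroup.lift θ)

open Classical in
/-- The number of entries which are not central. -/
noncomputable def nc (L : List G) : ℕ := L.countP (fun g => decide (g ∉ Subgroup.center G))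

theorem nc_nil : nc ([] : List G) = 0 := rfl

theorem nc_cons_of_mem {a : G} (L : List G) (ha : a ∈ Subgroup.center G) :
    nc (a :: L) = nc L := by
  classical
  unfold nc
  rw [List.countP_cons]
  simp [ha]

theorem nc_cons_of_notMem {a : G} (L : List G) (ha : a ∉ Subgroup.center G) :
    nc (a :: L) = nc L + 1 := by
  classical
  unfold nc
  rw [List.countP_cons]
  simp [ha]

theorem nc_append (L L' : List G) : nc (L ++ L') = nc L + nc L' := by
  classical
  unfold nc
  rw [List.countP_append]

theorem nc_perm {L L' : List G} (h : L.Perm L') : nc L = nc L' := by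
  classical
  unfold nc
  exact h.countP_eq _

theorem nc_cons_le (a : G) (L : List G) : nc (a :: L) ≤ nc L + 1 := by
  by_cases ha : a ∈ Subgroup.center G
  · rw [nc_cons_of_mem _ ha]; omega
  · rw [nc_cons_of_notMem _ ha]

theorem nc_zero {L : List G} (h : nc L = 0) : ∀ z ∈ L, z ∈ Subgroup.center G := by
  induction L with
  | nil => simp
  | cons a L ih =>
    by_cases ha : a ∈ Subgroup.center G
    · rw [nc_cons_of_mem _ ha] at h
      intro z hz
      rcases List.mem_cons.mp hz with rfl | hz
      · exact ha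
      · exact ih h z hz
    · rw [nc_cons_of_notMem _ ha] at h
      omega

theorem extract2
    (hC : ∀ L : List C, nc (L.map f) ≤ 2 → PX (L.map ι) 1 → PX (L.map f) 1) :
    ∀ S : Multiset (Cycle (Lt B X)), M S → ∀ K : List (List (Lt C X)),
      ((K.map fun k => cy (mp ι k) : List (Cycle (Lt B X))) : Multiset (Cycle (Lt B X))) = S →
      nc (K.map fun k => ev f θ (vl k)) ≤ 2 → PX (K.map fun k => ev f θ (vl k)) 1 := by
  intro S hS
  induction hS with
  | base L0 h =>
    intro K hK hn
    obtain ⟨K0, rfl, hK0⟩ := lift_base ι K L0 1 hK h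
    have e : (K0.map (fun k => k.map Sum.inl)).map (fun k => ev f θ (vl (X := X) k))
        = (K0.map List.prod).map f := by
      rw [List.map_map, List.map_map]
      congr 1
      funext k
      simp only [Function.comp_apply]
      rw [map_list_prod, vl, map_list_prod, List.map_map, List.map_map]
      congr 1
    rw [e] at hn ⊢
    exact hC _ hn hK0
  | merge y v v' l0 h ih =>
    intro K hK hn
    obtain ⟨k, K1, hp1, hk, hK1⟩ := lift_mem ι hK
    obtain ⟨k', K2, hp2, hk', hK2⟩ := lift_mem ι hK1
    obtain ⟨k1, k2, rfl, rfl⟩ := lift_cons ι hk.symm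
    obtain ⟨k1', k2', rfl, rfl⟩ := lift_cons ι hk'.symm
    set s := ev f θ (val (Sum.inr y : Lt C X)) with hs
    have hsb : ev f θ (val (Sum.inr (bar y) : Lt C X)) = s⁻¹ := by rw [val_bar, map_inv, hs]
    have hperm := List.Perm.map (fun k => ev f θ (vl k)) (hp1.trans (hp2.cons _))
    have hn' : nc ((((k2 ++ k1) ++ (k2' ++ k1')) :: K2).map fun k => ev f θ (vl k)) ≤ 2 := by
      refine le_trans ?_ hn
      rw [nc_perm hperm, List.map_cons, List.map_cons, List.map_cons]
      simp only [vl_append, vl_cons, map_mul, ← hs, hsb]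
      set p1 := ev f θ (vl k1)
      set p2 := ev f θ (vl k2)
      set p1' := ev f θ (vl k1')
      set p2' := ev f θ (vl k2')
      by_cases h1 : p1 * (s * p2) ∈ Subgroup.center G
      · by_cases h2 : p1' * (s⁻¹ * p2') ∈ Subgroup.center G
        · have h3 : p2 * p1 * (p2' * p1') ∈ Subgroup.center G := by
            have e1 := Subgroup.mem_center_iff.mp h1 p1⁻¹
            have e2 := Subgroup.mem_center_iff.mp h2 p1'⁻¹
            have e3 : p2 * p1 = s⁻¹ * (p1 * (s * p2)) := by
              have : s * p2 * p1 = p1 * (s * p2) := by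
                calc s * p2 * p1 = p1⁻¹ * (p1 * (s * p2)) * p1 := by group
                  _ = p1 * (s * p2) * p1⁻¹ * p1 := by rw [e1]
                  _ = p1 * (s * p2) := by group
              rw [← this]; group
            have e4 : p2' * p1' = s * (p1' * (s⁻¹ * p2')) := by
              have : s⁻¹ * p2' * p1' = p1' * (s⁻¹ * p2') := by
                calc s⁻¹ * p2' * p1' = p1'⁻¹ * (p1' * (s⁻¹ * p2')) * p1' := by group
                  _ = p1' * (s⁻¹ * p2') * p1'⁻¹ * p1' := by rw [e2]
                  _ = p1' * (s⁻¹ * p2') := by group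
              rw [← this]; group
            have e5 := Subgroup.mem_center_iff.mp h1 s⁻¹
            have e6 : p2 * p1 * (p2' * p1') = (p1 * (s * p2)) * (p1' * (s⁻¹ * p2')) := by
              rw [e4, e3, e5]
              group
            rw [e6]
            exact (Subgroup.center G).mul_mem h1 h2
          rw [nc_cons_of_mem _ h3, nc_cons_of_mem _ h1, nc_cons_of_mem _ h2]
        · rw [nc_cons_of_mem _ h1, nc_cons_of_notMem _ h2]
          exact nc_cons_le _ _
      · rw [nc_cons_of_notMem _ h1]
        refine le_trans (nc_cons_le _ _) ?_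
        by_cases h2 : p1' * (s⁻¹ * p2') ∈ Subgroup.center G
        · rw [nc_cons_of_mem _ h2]
        · rw [nc_cons_of_notMem _ h2]
          omega
    have h1 := ih (((k2 ++ k1) ++ (k2' ++ k1')) :: K2) (by
      rw [List.map_cons, ← Multiset.cons_coe, hK2, mp, List.map_append]) hn'
    rw [List.map_cons] at h1
    obtain ⟨d, z, hz, hg⟩ := PX_cons.mp h1
    refine PX_perm hperm.symm ?_
    rw [List.map_cons, List.map_cons]
    refine PX_cons.mpr ⟨d * s⁻¹ * (ev f θ (vl k1))⁻¹,
      d * (s⁻¹ * ev f θ (vl k2') * ev f θ (vl k1')) * d⁻¹ * z,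
      PX_cons.mpr ⟨d * (ev f θ (vl k1'))⁻¹, z, hz, ?_⟩, ?_⟩
    · simp only [vl_append, vl_cons, map_mul, hsb]
      group
    · simp only [vl_append, vl_cons, map_mul, ← hs] at hg ⊢
      rw [hg]
      group
  | split y v v' l1 l2 h h' ih ih' =>
    intro K hK hn
    obtain ⟨k, K1, hp1, hk, hK1⟩ := lift_mem ι hK
    obtain ⟨k1, k2, rfl, h2⟩ := lift_cons ι hk.symm
    obtain ⟨p, q, h3, rfl, rfl⟩ := mp_split ι h2.symm
    obtain ⟨Ka, Kb, hp2, ha, hb⟩ := lift_add ι l1 hK1
    set s := ev f θ (val (Sum.inr y : Lt C X)) with hs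
    have hsb : ev f θ (val (Sum.inr (bar y) : Lt C X)) = s⁻¹ := by rw [val_bar, map_inv, hs]
    have hperm := List.Perm.map (fun k => ev f θ (vl k)) (hp1.trans (hp2.cons _))
    have e3 : ev f θ (vl k2) * ev f θ (vl k1) = ev f θ (vl p) * s⁻¹ * ev f θ (vl q) := by
      rw [← map_mul, ← vl_append, h3, vl_append, vl_cons, map_mul, map_mul, hsb]
      group
    have e4 : (ev f θ (vl k1))⁻¹ * ev f θ (vl (k1 ++ Sum.inr y :: k2)) * (ev f θ (vl k1))⁻¹⁻¹
        = s * (ev f θ (vl k2) * ev f θ (vl k1)) := by
      rw [vl_append, vl_cons, map_mul, map_mul, ← hs]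
      group
    -- counting
    have hcount : nc ((p :: Ka).map fun k => ev f θ (vl k)) ≤ 2 ∧
        nc ((q :: Kb).map fun k => ev f θ (vl k)) ≤ 2 := by
      have hn2 := hn
      rw [nc_perm hperm, List.map_cons, List.map_append] at hn2
      rw [List.map_cons, List.map_cons]
      set A := Ka.map fun k => ev f θ (vl k) with hA
      set A' := Kb.map fun k => ev f θ (vl k) with hA'
      have hle1 := nc_cons_le (ev f θ (vl p)) A
      have hle2 := nc_cons_le (ev f θ (vl q)) A'
      by_cases hW : ev f θ (vl (k1 ++ Sum.inr y :: k2)) ∈ Subgroup.center G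
      · rw [nc_cons_of_mem _ hW, nc_append] at hn2
        have hW2 : s * (ev f θ (vl p) * s⁻¹ * ev f θ (vl q)) ∈ Subgroup.center G := by
          rw [← e3, ← e4]
          exact (inferInstance : (Subgroup.center G).Normal).conj_mem _ hW _
        by_cases h5 : nc A ≤ 1
        · by_cases h6 : nc A' ≤ 1
          · exact ⟨by omega, by omega⟩
          · have h7 : nc A = 0 := by omega
            have h8 : nc (ev f θ (vl p) :: A) ≤ 2 := by omega
            have h9 := ih (p :: Ka) (by rw [List.map_cons, ← Multiset.cons_coe, ha]) h8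
            rw [List.map_cons] at h9
            have h10 := cen_of_PX (nc_zero h7) h9
            have h11 : ev f θ (vl q) ∈ Subgroup.center G := by
              have e5 : ev f θ (vl q) = (s * (ev f θ (vl p))⁻¹ * s⁻¹) *
                  (s * (ev f θ (vl p) * s⁻¹ * ev f θ (vl q))) := by group
              rw [e5]
              exact (Subgroup.center G).mul_mem ((inferInstance :
                (Subgroup.center G).Normal).conj_mem _ ((Subgroup.center G).inv_mem h10) _) hW2
            exact ⟨h8, by rw [nc_cons_of_mem _ h11]; omega⟩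
        · have h7 : nc A' = 0 := by omega
          have h8 : nc (ev f θ (vl q) :: A') ≤ 2 := by omega
          have h9 := ih' (q :: Kb) (by rw [List.map_cons, ← Multiset.cons_coe, hb]) h8
          rw [List.map_cons] at h9
          have h10 := cen_of_PX (nc_zero h7) h9
          have h11 : ev f θ (vl p) ∈ Subgroup.center G := by
            have e5 : ev f θ (vl p) = s⁻¹ * (s * (ev f θ (vl p) * s⁻¹ * ev f θ (vl q))) * s⁻¹⁻¹ *
                (s⁻¹ * (ev f θ (vl q))⁻¹ * s⁻¹⁻¹) := by group
            rw [e5]
            exact (Subgroup.center G).mul_mem ((inferInstance :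
              (Subgroup.center G).Normal).conj_mem _ hW2 _) ((inferInstance :
              (Subgroup.center G).Normal).conj_mem _ ((Subgroup.center G).inv_mem h10) _)
          exact ⟨by rw [nc_cons_of_mem _ h11]; omega, h8⟩
      · rw [nc_cons_of_notMem _ hW, nc_append] at hn2
        exact ⟨by omega, by omega⟩
    have h4 := ih (p :: Ka) (by rw [List.map_cons, ← Multiset.cons_coe, ha]) hcount.1
    have h5 := ih' (q :: Kb) (by rw [List.map_cons, ← Multiset.cons_coe, hb]) hcount.2
    rw [List.map_cons] at h4 h5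
    obtain ⟨d, z, hz, hg⟩ := PX_cons.mp h4
    obtain ⟨e, z', hz', hg'⟩ := PX_cons.mp h5
    refine PX_perm hperm.symm ?_
    rw [List.map_cons]
    have e1 : ev f θ (vl p) = d⁻¹ * z⁻¹ * d := by
      have : z = (d * ev f θ (vl p) * d⁻¹)⁻¹ := eq_inv_of_mul_eq_one_right hg.symm
      rw [this]; group
    have e2 : ev f θ (vl q) = e⁻¹ * z'⁻¹ * e := by
      have : z' = (e * ev f θ (vl q) * e⁻¹)⁻¹ := eq_inv_of_mul_eq_one_right hg'.symm
      rw [this]; group
    have h6 : PX ((Kb ++ Ka).map fun k => ev f θ (vl k))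
        ((e⁻¹ * z' * e⁻¹⁻¹) * ((s * d⁻¹) * z * (s * d⁻¹)⁻¹)) := by
      rw [List.map_append]
      exact PX_append.mpr ⟨_, _, PX_conj hz' _, PX_conj hz _, rfl⟩
    have h7 := PX_perm (List.Perm.map (fun k => ev f θ (vl k))
      (List.perm_append_comm (l₁ := Kb) (l₂ := Ka))) h6
    refine PX_cons.mpr ⟨(ev f θ (vl k1))⁻¹, _, h7, ?_⟩
    rw [e4, e3, e1, e2]
    group

theorem free2
    (hC : ∀ L : List C, nc (L.map f) ≤ 2 → PX (L.map ι) 1 → PX (L.map f) 1)
    (L : List (Coprod C (FreeGroup X))) (hn : nc (L.map (ev f θ)) ≤ 2)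
    (hL : PX (L.map (Coprod.map ι (MonoidHom.id (FreeGroup X)))) 1) :
    PX (L.map (ev f θ)) 1 := by
  have h1 : ∃ K : List (List (Lt C X)), K.map vl = L := by
    clear hL hn
    induction L with
    | nil => exact ⟨[], rfl⟩
    | cons g L ih =>
      obtain ⟨K, rfl⟩ := ih
      obtain ⟨k, rfl⟩ := vl_surj g
      exact ⟨k :: K, rfl⟩
  obtain ⟨K, rfl⟩ := h1
  have h2 : PX ((K.map (mp ι)).map vl) 1 := by
    rw [List.map_map] at hL ⊢
    convert hL using 2
    funext k
    exact mp_vl ι k
  have h3 := M_of_PX h2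
  rw [List.map_map] at h3
  rw [List.map_map] at hn ⊢
  exact extract2 ι f θ hC _ h3 K rfl hn

end Extract

section StabTwo

variable {C : Type u} {G : Type v} {J : Type w} [Group C] [Group G]

/-- **Stability theorem for product-one relations in which all but two entries are central.** -/
theorem stab2 (f : C →* G) (R : Set (Coprod C (FreeGroup J)))
    (hC : ∀ L : List C, nc (L.map f) ≤ 2 → PX (L.map (hq R)) 1 → PX (L.map f) 1)
    (L : List G) (hn : nc L ≤ 2)
    (hL : PX (L.map (hq (Coprod.map f (MonoidHom.id (FreeGroup J)) '' R))) 1) : PX L 1 := by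
  obtain ⟨L1, L2, e1, e2, h3⟩ := stab_pull f R L hL
  have hones : ∀ y ∈ L2.map (ev f (id : G → G)), y = 1 := by
    intro y hy
    obtain ⟨z, hz, rfl⟩ := List.mem_map.mp hy
    exact e2 z hz
  have e1' : L1.map (ev f (id : G → G)) = L := e1
  have hn2 : nc (L2.map (ev f (id : G → G))) = 0 := by
    generalize L2.map (ev f (id : G → G)) = L3 at hones
    induction L3 with
    | nil => rfl
    | cons a L3 ih =>
      rw [nc_cons_of_mem _ (by rw [hones a List.mem_cons_self]; exact Subgroup.one_mem _)]
      exact ih (fun y hy => hones y (List.mem_cons_of_mem _ hy))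
  have hn3 : nc ((L1 ++ L2).map (ev f (id : G → G))) ≤ 2 := by
    rw [List.map_append, nc_append, hn2, e1']
    exact hn
  have h4 := free2 (hq R) f (id : G → G) hC (L1 ++ L2) hn3 h3
  rw [List.map_append, e1'] at h4
  exact PX_drop_ones h4 hones

end StabTwo

end Pool.Agent.H76.Planar
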