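import Pool.Agent.H76.Planar.Surg

/-! Invariance of the predicate `M` under the relations of the free product. -/

set_option autoImplicit false

namespace Pool.Agent.H76.Planar

open Pool.Agent.H76.Ker

universe u v

variable {B : Type u} {X : Type v} [Group B]

theorem bw_no {W : List B} {a1 a2 : List (Lt B X)} {y : X × Bool}
    (h : bw X W = a1 ++ Sum.inr y :: a2) : False := by
  have : (Sum.inr y : Lt B X) ∈ bw X W := by rw [h]; simp
  simp [bw] at this

theorem bw_aux (W W' : List B) (hW : W.prod = W'.prod) :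
    ∀ S : Multiset (Cycle (Lt B X)), M S → ∀ (u : List (Lt B X))
    (l : Multiset (Cycle (Lt B X))), S = cy (bw X W ++ u) ::ₘ l → M (cy (bw X W' ++ u) ::ₘ l) := by
  intro S hS
  induction hS with
  | base L h =>
    intro u l he
    obtain ⟨a', L', h1, rfl, hp⟩ := base_cases h he
    obtain ⟨a1, a2, rfl, h2, rfl⟩ := List.append_eq_map_iff.mp h1
    have h2' : a1 = W := List.map_injective_iff.mpr Sum.inl_injective h2
    subst h2'
    have h3 : PX (((W' ++ a2) :: L').map List.prod) 1 := by
      rw [List.map_cons, List.prod_append] at hp ⊢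
      rw [← hW]
      exact hp
    have h4 := M.base (X := X) _ h3
    have h5 : (((((W' ++ a2) :: L').map fun u => cy (bw X u) : List (Cycle (Lt B X))) :
        Multiset (Cycle (Lt B X)))) = cy (bw X W' ++ bw X a2) ::ₘ bm X L' := by
      rw [List.map_cons, ← Multiset.cons_coe, bw, bw, bw, ← List.map_append]
    rw [h5] at h4
    exact h4
  | merge y v v' l0 h ih =>
    intro u l he
    rcases cons_cases he with ⟨h1, rfl⟩ | ⟨t, h1, rfl⟩
    · rcases cy_cons_app h1 with ⟨a1, a2, h2, _⟩ | ⟨u1, u2, rfl, rfl⟩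
      · exact (bw_no h2).elim
      · have h2 := ih (u1 ++ v' ++ u2) l0
          (congrArg (· ::ₘ l0) (cy_eq u2 (bw X W ++ u1 ++ v') (by simp) (by simp)))
        have e1 : cy (bw X W' ++ (u1 ++ Sum.inr y :: u2))
            = cy (Sum.inr y :: (u2 ++ bw X W' ++ u1)) :=
          cy_eq (bw X W' ++ u1) (Sum.inr y :: u2) (by simp) (by simp)
        have e2 : cy ((u2 ++ bw X W' ++ u1) ++ v') = cy (bw X W' ++ (u1 ++ v' ++ u2)) :=
          cy_eq u2 (bw X W' ++ u1 ++ v') (by simp) (by simp)
        rw [e1]
        apply M.merge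
        rw [e2]
        exact h2
    · rcases cons_cases h1 with ⟨h1', rfl⟩ | ⟨t', rfl, rfl⟩
      · rcases cy_cons_app h1' with ⟨a1, a2, h2, _⟩ | ⟨u1, u2, rfl, rfl⟩
        · exact (bw_no h2).elim
        · have h2 := ih (u1 ++ v ++ u2) l0
            (congrArg (· ::ₘ l0) (cy_eq (v ++ u2) (bw X W ++ u1) (by simp) (by simp)))
          have e1 : cy (bw X W' ++ (u1 ++ Sum.inr (bar y) :: u2))
              = cy (Sum.inr (bar y) :: (u2 ++ bw X W' ++ u1)) :=
            cy_eq (bw X W' ++ u1) (Sum.inr (bar y) :: u2) (by simp) (by simp)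
          have e2 : cy (v ++ (u2 ++ bw X W' ++ u1)) = cy (bw X W' ++ (u1 ++ v ++ u2)) :=
            cy_eq (v ++ u2) (bw X W' ++ u1) (by simp) (by simp)
          rw [e1, Multiset.cons_swap]
          apply M.merge
          rw [e2]
          exact h2
      · have h2 := ih u (cy (v ++ v') ::ₘ t') (Multiset.cons_swap _ _ _)
        rw [Multiset.cons_swap, Multiset.cons_swap (cy (bw X W' ++ u))]
        apply M.merge
        rw [Multiset.cons_swap]
        exact h2
  | split y v v' l1 l2 h h' ih ih' =>
    intro u l he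
    rcases cons_cases he with ⟨h1, rfl⟩ | ⟨t, h1, rfl⟩
    · rcases cy_cons_app h1 with ⟨a1, a2, h2, _⟩ | ⟨u1, u2, rfl, h3⟩
      · exact (bw_no h2).elim
      · rw [List.append_assoc] at h3
        rcases app_mid h3 with ⟨m, rfl, rfl⟩ | ⟨m, h4, rfl⟩
        · have h5 := ih' (u1 ++ m) l2
            (congrArg (· ::ₘ l2) (cy_eq m (bw X W ++ u1) (by simp) (by simp)))
          have e1 : cy (bw X W' ++ (u1 ++ Sum.inr y :: (v ++ Sum.inr (bar y) :: m)))
              = cy (Sum.inr y :: (v ++ Sum.inr (bar y) :: (m ++ bw X W' ++ u1))) :=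
            cy_eq (bw X W' ++ u1) (Sum.inr y :: (v ++ Sum.inr (bar y) :: m)) (by simp) (by simp)
          have e2 : cy (m ++ bw X W' ++ u1) = cy (bw X W' ++ (u1 ++ m)) :=
            cy_eq m (bw X W' ++ u1) (by simp) (by simp)
          rw [e1]
          apply M.split _ _ _ _ _ h
          rw [e2]
          exact h5
        · rcases app_mid h4.symm with ⟨m', h6, _⟩ | ⟨m', rfl, rfl⟩
          · exact (bw_no h6).elim
          · have h5 := ih (m' ++ u2) l1
              (congrArg (· ::ₘ l1) (cy_eq u2 (bw X W ++ m') (by simp) (by simp)))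
            have e1 : cy (bw X W' ++ (m' ++ Sum.inr (bar y) :: v' ++ Sum.inr y :: u2))
                = cy (Sum.inr y :: ((u2 ++ bw X W' ++ m') ++ Sum.inr (bar y) :: v')) :=
              cy_eq (bw X W' ++ m' ++ Sum.inr (bar y) :: v') (Sum.inr y :: u2) (by simp) (by simp)
            have e2 : cy (u2 ++ bw X W' ++ m') = cy (bw X W' ++ (m' ++ u2)) :=
              cy_eq u2 (bw X W' ++ m') (by simp) (by simp)
            rw [e1]
            refine M.split _ _ _ _ _ ?_ h'
            rw [e2]
            exact h5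
    · rcases add_cases h1 with ⟨s', rfl, rfl⟩ | ⟨t', rfl, rfl⟩
      · have h2 := ih u (cy v ::ₘ s') (Multiset.cons_swap _ _ _)
        rw [Multiset.cons_swap, ← Multiset.cons_add]
        refine M.split _ _ _ _ _ ?_ h'
        rw [Multiset.cons_swap]
        exact h2
      · have h2 := ih' u (cy v' ::ₘ t') (Multiset.cons_swap _ _ _)
        rw [Multiset.cons_swap, ← Multiset.add_cons]
        refine M.split _ _ _ _ _ h ?_
        rw [Multiset.cons_swap]
        exact h2

omit [Group B] in
/-- Positions of a letter in `s s⁻¹ u`. -/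
theorem pos_del {s y : X × Bool} {u p1 p2 : List (Lt B X)}
    (h : Sum.inr s :: Sum.inr (bar s) :: u = p1 ++ Sum.inr y :: p2) :
    (p1 = [] ∧ y = s ∧ p2 = Sum.inr (bar s) :: u) ∨ (p1 = [Sum.inr s] ∧ y = bar s ∧ p2 = u) ∨
    (∃ u1, p1 = Sum.inr s :: Sum.inr (bar s) :: u1 ∧ u = u1 ++ Sum.inr y :: p2) := by
  rcases p1 with _ | ⟨x1, _ | ⟨x2, p1⟩⟩
  · rw [List.nil_append, List.cons.injEq] at h
    left
    exact ⟨rfl, (Sum.inr_injective h.1).symm, h.2.symm⟩
  · rw [List.cons_append, List.nil_append, List.cons.injEq, List.cons.injEq] at h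
    obtain ⟨rfl, h2, rfl⟩ := h
    right; left
    exact ⟨rfl, (Sum.inr_injective h2).symm, rfl⟩
  · rw [List.cons_append, List.cons_append, List.cons.injEq, List.cons.injEq] at h
    obtain ⟨rfl, rfl, h3⟩ := h
    right; right
    exact ⟨p1, rfl, h3⟩

theorem del_aux (s : X × Bool) : ∀ S : Multiset (Cycle (Lt B X)), M S → ∀ (u : List (Lt B X))
    (l : Multiset (Cycle (Lt B X))), S = cy (Sum.inr s :: Sum.inr (bar s) :: u) ::ₘ l →
    M (cy u ::ₘ l) := by
  intro S hS
  induction hS with
  | base L h =>
    intro u l he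
    obtain ⟨a', L', h1, rfl, hp⟩ := base_cases h he
    exact (bw_no (a1 := []) h1.symm).elim
  | merge y v v' l0 h ih =>
    have key : ∀ (y : X × Bool) (v v' : List (Lt B X)) (u : List (Lt B X)),
        (∀ (u : List (Lt B X)) (l : Multiset (Cycle (Lt B X))),
          cy (v ++ v') ::ₘ l0 = cy (Sum.inr s :: Sum.inr (bar s) :: u) ::ₘ l → M (cy u ::ₘ l)) →
        M (cy (v ++ v') ::ₘ l0) →
        cy (Sum.inr y :: v) = cy (Sum.inr s :: Sum.inr (bar s) :: u) →
        M (cy u ::ₘ cy (Sum.inr (bar y) :: v') ::ₘ l0) := by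
      intro y v v' u ih h h1
      obtain ⟨p1, p2, h2, h3⟩ := cy_cons h1
      rcases pos_del h2 with ⟨rfl, rfl, rfl⟩ | ⟨rfl, rfl, rfl⟩ | ⟨u1, rfl, rfl⟩
      · subst h3
        have e1 : cy (Sum.inr (bar y) :: v') = cy (v' ++ [Sum.inr (bar y)]) :=
          cy_eq [Sum.inr (bar y)] v' (by simp) (by simp)
        rw [e1]
        apply M.cut
        have e2 : cy (u ++ (v' ++ [Sum.inr (bar y)])) = cy (Sum.inr (bar y) :: u ++ [] ++ v') :=
          cy_eq (u ++ v') [Sum.inr (bar y)] (by simp) (by simp)
        rw [e2]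
        exact h
      · subst h3
        apply M.cut
        rw [bar_bar]
        have e2 : p2 ++ Sum.inr s :: v' = p2 ++ [Sum.inr s] ++ v' := by simp
        rw [e2]
        exact h
      · subst h3
        have h4 := ih (u1 ++ v' ++ p2) l0
          (congrArg (· ::ₘ l0) (cy_eq p2 (Sum.inr s :: Sum.inr (bar s) :: (u1 ++ v'))
            (by simp) (by simp)))
        have e1 : cy (u1 ++ Sum.inr y :: p2) = cy (Sum.inr y :: (p2 ++ u1)) :=
          cy_eq u1 (Sum.inr y :: p2) (by simp) (by simp)
        have e2 : cy ((p2 ++ u1) ++ v') = cy (u1 ++ v' ++ p2) :=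
          cy_eq p2 (u1 ++ v') (by simp) (by simp)
        rw [e1]
        apply M.merge
        rw [e2]
        exact h4
    intro u l he
    rcases cons_cases he with ⟨h1, rfl⟩ | ⟨t, h1, rfl⟩
    · exact key y v v' u ih h h1
    · rcases cons_cases h1 with ⟨h1', rfl⟩ | ⟨t', rfl, rfl⟩
      · have := key (bar y) v' v u (by rwa [cy_rot v' v]) (by rwa [cy_rot v' v]) h1'
        rwa [bar_bar] at this
      · have h2 := ih u (cy (v ++ v') ::ₘ t') (Multiset.cons_swap _ _ _)
        rw [Multiset.cons_swap, Multiset.cons_swap (cy u)]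
        apply M.merge
        rw [Multiset.cons_swap]
        exact h2
  | split y v v' l1 l2 h h' ih ih' =>
    intro u l he
    rcases cons_cases he with ⟨h1, rfl⟩ | ⟨t, h1, rfl⟩
    · obtain ⟨p1, p2, h2, h3⟩ := cy_cons h1
      rcases pos_del h2 with ⟨rfl, rfl, rfl⟩ | ⟨rfl, rfl, rfl⟩ | ⟨u1, rfl, rfl⟩
      · rw [List.append_nil] at h3
        rcases v with _ | ⟨c, v⟩
        · rw [List.nil_append, List.cons.injEq] at h3
          obtain ⟨_, rfl⟩ := h3
          exact M.sum h h'
        · rw [List.cons_append, List.cons.injEq] at h3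
          obtain ⟨rfl, rfl⟩ := h3
          have h4 := M.sum (a := v ++ [Sum.inr (bar y)]) (b := v') (l := l1) (l' := l2)
            (by rw [cy_rot]; exact h) h'
          have e1 : v ++ [Sum.inr (bar y)] ++ v' = v ++ Sum.inr (bar y) :: v' := by simp
          rw [e1] at h4
          exact h4
      · rw [bar_bar] at h3
        rcases app_mid h3 with ⟨m, rfl, rfl⟩ | ⟨m, h4, rfl⟩
        · have h4 := M.sum (a := v) (b := Sum.inr s :: m) (l := l1) (l' := l2) h
            (by
              have e1 : cy (Sum.inr s :: m) = cy (m ++ [Sum.inr s]) :=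
                cy_eq [Sum.inr s] m (by simp) (by simp)
              rw [e1]
              exact h')
          exact h4
        · have h5 : m = [] ∧ v' = [] := by
            rcases m with _ | ⟨x, m⟩
            · simpa using h4
            · simp at h4
          obtain ⟨rfl, rfl⟩ := h5
          have h4 := M.sum h h'
          simpa using h4
      · rcases app_mid h3 with ⟨m, rfl, rfl⟩ | ⟨m, h4, rfl⟩
        · have h5 := ih' (u1 ++ m) l2
            (congrArg (· ::ₘ l2) (cy_eq m (Sum.inr s :: Sum.inr (bar s) :: u1) (by simp) (by simp)))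
          have e1 : cy (u1 ++ Sum.inr y :: (v ++ Sum.inr (bar y) :: m))
              = cy (Sum.inr y :: (v ++ Sum.inr (bar y) :: (m ++ u1))) :=
            cy_eq u1 (Sum.inr y :: (v ++ Sum.inr (bar y) :: m)) (by simp) (by simp)
          rw [e1]
          apply M.split _ _ _ _ _ h
          rw [cy_rot m u1]
          exact h5
        · rcases pos_del h4 with ⟨rfl, h6, rfl⟩ | ⟨rfl, h6, rfl⟩ | ⟨m', rfl, rfl⟩
          · have h7 : y = bar s := by rw [← h6, bar_bar]
            subst h7
            have h5 := M.sum (a := u1 ++ [Sum.inr (bar s)]) (b := p2) (l := l2) (l' := l1)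
              (by rw [cy_rot]; exact h') (by simpa using h)
            have e1 : u1 ++ [Sum.inr (bar s)] ++ p2 = u1 ++ Sum.inr (bar s) :: p2 := by simp
            rw [e1, add_comm] at h5
            exact h5
          · have h7 : y = s := by rw [← bar_bar y, h6, bar_bar]
            subst h7
            have h5 := M.sum (a := v') (b := Sum.inr y :: p2) (l := l2) (l' := l1) h'
              (by
                have e1 : cy (Sum.inr y :: p2) = cy (p2 ++ [Sum.inr y]) :=
                  cy_eq [Sum.inr y] p2 (by simp) (by simp)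
                rw [e1]
                exact h)
            rw [add_comm] at h5
            exact h5
          · have h5 := ih (m' ++ p2) l1
              (congrArg (· ::ₘ l1) (cy_eq p2 (Sum.inr s :: Sum.inr (bar s) :: m')
                (by simp) (by simp)))
            have e1 : cy (m' ++ Sum.inr (bar y) :: v' ++ Sum.inr y :: p2)
                = cy (Sum.inr y :: ((p2 ++ m') ++ Sum.inr (bar y) :: v')) :=
              cy_eq (m' ++ Sum.inr (bar y) :: v') (Sum.inr y :: p2) (by simp) (by simp)
            rw [e1]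
            refine M.split _ _ _ _ _ ?_ h'
            rw [cy_rot p2 m']
            exact h5
    · rcases add_cases h1 with ⟨s', rfl, rfl⟩ | ⟨t', rfl, rfl⟩
      · have h2 := ih u (cy v ::ₘ s') (Multiset.cons_swap _ _ _)
        rw [Multiset.cons_swap, ← Multiset.cons_add]
        refine M.split _ _ _ _ _ ?_ h'
        rw [Multiset.cons_swap]
        exact h2
      · have h2 := ih' u (cy v' ::ₘ t') (Multiset.cons_swap _ _ _)
        rw [Multiset.cons_swap, ← Multiset.add_cons]
        refine M.split _ _ _ _ _ h ?_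
        rw [Multiset.cons_swap]
        exact h2

end Pool.Agent.H76.Planar
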