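import Pool.Agent.H76.Planar.Cent

/-! Unitary representations and product-one relations with central entries. -/

set_option autoImplicit false

namespace Pool.Agent.H76.Planar

open Pool.Agent.H76.Ker Pool.Agent.H76.GR Monoid
open scoped Matrix.Norms.L2Operator

universe u v w

section RepSep

variable {N : Type*} [Fintype N] [DecidableEq N]

instance sub_closed (A : StarSubalgebra ℂ (Matrix N N ℂ)) : IsClosed (A : Set (Matrix N N ℂ)) :=
  (A.toSubalgebra.toSubmodule).closed_of_finiteDimensional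

noncomputable instance sub_cstar (A : StarSubalgebra ℂ (Matrix N N ℂ)) : CStarAlgebra A :=
  StarSubalgebra.cstarAlgebra A

instance sub_fd (A : StarSubalgebra ℂ (Matrix N N ℂ)) : FiniteDimensional ℂ A :=
  inferInstanceAs (FiniteDimensional ℂ (A.toSubalgebra.toSubmodule))

/-- The trace. -/
noncomputable def subTr (A : StarSubalgebra ℂ (Matrix N N ℂ)) : A →ₗ[ℝ] ℝ :=
  (reTr N).comp (A.toSubalgebra.toSubmodule.subtype.restrictScalars ℝ)

theorem subTr_isTr (A : StarSubalgebra ℂ (Matrix N N ℂ)) : IsTr (subTr A) := by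
  refine ⟨fun x y => (reTr_isTr N).comm _ _, fun x hx => (reTr_isTr N).pos _ ?_⟩
  intro h
  exact hx (Subtype.ext h)

theorem gr_sub {C : Type*} [Group C] {n : ℕ} (A : StarSubalgebra ℂ (Matrix N N ℂ))
    (ρ : C →* unitary A) (w : Fin n → WG C n)
    (hdet : (Matrix.of fun i j => Multiplicative.toAdd (expo C n i (w j))).det ≠ 0) :
    ∃ Φ : WG C n →* unitary A, (∀ g, Φ (Coprod.inl g) = ρ g) ∧ ∀ j, Φ (w j) = 1 := by
  let M : WG C n →* WU A n := Coprod.map ρ (MonoidHom.id _)
  have he : ∀ i c, eta (unitary A) i (M c) = expo C n i c := by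
    intro i c
    have : (eta (unitary A) i).comp M = expo C n i := by
      refine Coprod.hom_ext (MonoidHom.ext fun c => ?_) (FreeGroup.ext_hom _ _ fun k => ?_)
      · simp [M]
      · simp [M]
    exact DFunLike.congr_fun this c
  obtain ⟨u, hu⟩ := gr_unitary (subTr_isTr A) (fun j => M (w j)) (by simpa only [he] using hdet)
  refine ⟨(Coprod.lift (MonoidHom.id _) (FreeGroup.lift u)).comp M, fun g => ?_, fun j => hu j⟩
  simp [M]

theorem central_conj_rep {C : Type u} [Group C] {n : ℕ} (v : Fin n → WG C n)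
    (hdet : (Matrix.of fun i j => Multiplicative.toAdd (expo C n i (v j))).det ≠ 0)
    (a b : C) (Z : List C) (hZ : ∀ z ∈ Z, z ∈ Subgroup.center C)
    (h : PX ((a :: b :: Z).map (hq (Set.range v))) 1) (k : ℕ)
    (ρ : C →* Matrix.unitaryGroup (Fin k) ℂ) : IsConj (ρ a) (ρ (Z.prod * b)⁻¹) := by
  let S : Set (Matrix (Fin k) (Fin k) ℂ) :=
    {T | ∃ z ∈ Subgroup.center C, (ρ z : Matrix (Fin k) (Fin k) ℂ) = T}
  let A : StarSubalgebra ℂ (Matrix (Fin k) (Fin k) ℂ) := StarSubalgebra.centralizer ℂ S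
  have hA : ∀ T : Matrix (Fin k) (Fin k) ℂ, T ∈ A ↔
      ∀ z ∈ Subgroup.center C, (ρ z : Matrix (Fin k) (Fin k) ℂ) * T = T * ρ z ∧
        star (ρ z : Matrix (Fin k) (Fin k) ℂ) * T = T * star (ρ z : Matrix (Fin k) (Fin k) ℂ) := by
    intro T
    rw [StarSubalgebra.mem_centralizer_iff]
    constructor
    · intro hT z hz
      exact hT _ ⟨z, hz, rfl⟩
    · rintro hT _ ⟨z, hz, rfl⟩
      exact hT z hz
  have hstar : ∀ c : C, star (ρ c : Matrix (Fin k) (Fin k) ℂ) = (ρ c⁻¹ : Matrix (Fin k) (Fin k) ℂ) := by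
    intro c
    rw [map_inv]
    rfl
  have hmem : ∀ c : C, (ρ c : Matrix (Fin k) (Fin k) ℂ) ∈ A := by
    intro c
    rw [hA]
    intro z hz
    rw [hstar]
    refine ⟨?_, ?_⟩
    · have := congrArg (fun x => (ρ x : Matrix (Fin k) (Fin k) ℂ)) (Subgroup.mem_center_iff.mp hz c)
      simp only [map_mul, Submonoid.coe_mul] at this
      exact this.symm
    · have := congrArg (fun x => (ρ x : Matrix (Fin k) (Fin k) ℂ))
        (Subgroup.mem_center_iff.mp ((Subgroup.center C).inv_mem hz) c)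
      simp only [map_mul, Submonoid.coe_mul] at this
      exact this.symm
  let ρ' : C →* unitary A :=
    { toFun := fun c => ⟨⟨ρ c, hmem c⟩, by
        rw [Unitary.mem_iff]
        constructor
        · apply Subtype.ext
          exact (Unitary.mem_iff.mp (ρ c).2).1
        · apply Subtype.ext
          exact (Unitary.mem_iff.mp (ρ c).2).2⟩
      map_one' := by
        apply Subtype.ext
        apply Subtype.ext
        change ((ρ 1 : Matrix.unitaryGroup (Fin k) ℂ) : Matrix (Fin k) (Fin k) ℂ) = 1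
        rw [map_one]
        rfl
      map_mul' := by
        intro x y
        apply Subtype.ext
        apply Subtype.ext
        change ((ρ (x * y) : Matrix.unitaryGroup (Fin k) ℂ) : Matrix (Fin k) (Fin k) ℂ) = ρ x * ρ y
        rw [map_mul]
        rfl }
  obtain ⟨Φ, hΦ, hw⟩ := gr_sub A ρ' v hdet
  have hker : Subgroup.normalClosure (Set.range v) ≤ Φ.ker := by
    apply Subgroup.normalClosure_le_normal
    rintro _ ⟨j, rfl⟩
    exact hw j
  let Ψ : Hq C (Fin n) (Set.range v) →* unitary A := QuotientGroup.lift _ Φ hker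
  have hΨ : ∀ c, Ψ (hq (Set.range v) c) = ρ' c := fun c => hΦ c
  have h1 := PX_map Ψ h
  rw [List.map_map, map_one] at h1
  have h2 : (a :: b :: Z).map (Ψ ∘ hq (Set.range v)) = (a :: b :: Z).map ρ' :=
    List.map_congr_left fun c _ => hΨ c
  rw [h2, List.map_cons, List.map_cons] at h1
  obtain ⟨c, y1, hy1, h3⟩ := PX_cons.mp h1
  obtain ⟨d, y2, hy2, rfl⟩ := PX_cons.mp hy1
  have hcen : ∀ z ∈ Subgroup.center C, ρ' z ∈ Subgroup.center (unitary A) := by
    intro z hz
    rw [Subgroup.mem_center_iff]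
    intro g
    apply Subtype.ext
    apply Subtype.ext
    change ((g : A) : Matrix (Fin k) (Fin k) ℂ) * ρ z = ρ z * ((g : A) : Matrix (Fin k) (Fin k) ℂ)
    exact (((hA _).mp (g : A).2 z hz).1).symm
  have hZ2 : ∀ z ∈ Z.map ρ', z ∈ Subgroup.center (unitary A) := by
    intro z' hz'
    obtain ⟨z, hz, rfl⟩ := List.mem_map.mp hz'
    exact hcen z (hZ z hz)
  have hy := PX_central hZ2 hy2
  rw [← map_list_prod] at hy
  have hyc : ρ' Z.prod ∈ Subgroup.center (unitary A) :=
    hcen _ (Subgroup.list_prod_mem _ hZ)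
  have h4 : c * ρ' a * c⁻¹ = d * (ρ' (Z.prod * b)⁻¹) * d⁻¹ := by
    have h5 : c * ρ' a * c⁻¹ = (d * ρ' b * d⁻¹ * y2)⁻¹ := eq_inv_of_mul_eq_one_left h3.symm
    rw [h5, hy, map_inv, map_mul]
    have h6 := Subgroup.mem_center_iff.mp hyc (d * ρ' b * d⁻¹)
    rw [h6]
    have h7 := Subgroup.mem_center_iff.mp hyc d
    have h8 : ρ' Z.prod * (d * ρ' b * d⁻¹) = (ρ' Z.prod * d) * ρ' b * d⁻¹ := by group
    rw [h8, ← h7]
    group
  have h5 : IsConj (ρ' a) (ρ' (Z.prod * b)⁻¹) := by
    rw [isConj_iff]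
    refine ⟨d⁻¹ * c, ?_⟩
    have : d⁻¹ * c * ρ' a * (d⁻¹ * c)⁻¹ = d⁻¹ * (c * ρ' a * c⁻¹) * d := by group
    rw [this, h4]
    group
  obtain ⟨e, he⟩ := isConj_iff.mp h5
  rw [isConj_iff]
  refine ⟨⟨((e : A) : Matrix (Fin k) (Fin k) ℂ), ?_⟩, ?_⟩
  · rw [Unitary.mem_iff]
    have h6 := Unitary.mem_iff.mp e.2
    exact ⟨congrArg Subtype.val h6.1, congrArg Subtype.val h6.2⟩
  · apply Subtype.ext
    have h6 := congrArg (fun x : unitary A => ((x : A) : Matrix (Fin k) (Fin k) ℂ)) he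
    exact h6

end RepSep

end Pool.Agent.H76.Planar
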