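import Pool.Agent.H76.Planar.Apply
import Pool.Agent.H76.Planar.RepSep

/-! Product-one relations when the product of all but two of the classes is a coset. -/

set_option autoImplicit false

namespace Pool.Agent.H76.Planar

open Pool.Agent.H76.Ker Monoid

universe u v w

section Flat

theorem PX_one_cons {G : Type*} [Group G] {L : List G} {x : G} : PX (1 :: L) x ↔ PX L x := by
  rw [PX_cons]
  constructor
  · rintro ⟨c, y, hy, rfl⟩
    have : c * 1 * c⁻¹ * y = y := by group
    rw [this]
    exact hy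
  · intro h
    exact ⟨1, x, h, by group⟩

/-- If the product of the classes of the entries of `Z` is a coset of `N`, then these entries are
central modulo `N`. -/
theorem coset_cen {G : Type*} [Group G] {Z : List G} (N : Subgroup G) [hNn : N.Normal]
    (hN : ∀ x, PX Z x ↔ Z.prod⁻¹ * x ∈ N) {z : G} (hz : z ∈ Z) (x : G) :
    z⁻¹ * (x * z * x⁻¹) ∈ N := by
  classical
  obtain ⟨Z', hZ'⟩ : ∃ Z', List.Perm Z (z :: Z') := ⟨_, List.perm_cons_erase hz⟩
  have h1 : PX Z (z * Z'.prod) :=
    PX_perm hZ'.symm (PX_cons.mpr ⟨1, Z'.prod, PX_prod Z', by group⟩)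
  have h2 : PX Z (x * z * x⁻¹ * Z'.prod) :=
    PX_perm hZ'.symm (PX_cons.mpr ⟨x, Z'.prod, PX_prod Z', rfl⟩)
  have h3 := N.mul_mem (N.inv_mem ((hN _).mp h1)) ((hN _).mp h2)
  have h4 := hNn.conj_mem _ h3 Z'.prod
  have h5 : Z'.prod * ((Z.prod⁻¹ * (z * Z'.prod))⁻¹ * (Z.prod⁻¹ * (x * z * x⁻¹ * Z'.prod)))
      * Z'.prod⁻¹ = z⁻¹ * (x * z * x⁻¹) := by group
  rwa [h5] at h4

variable {n : ℕ} {C : Type u} {G : Type v} [Group C] [Group G]

/-- Two non-central entries: conjugacy in the finite quotients of `C`. -/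
theorem central_conj (v : Fin n → WG C n)
    (hdet : (Matrix.of fun i j => Multiplicative.toAdd (expo C n i (v j))).det ≠ 0)
    (a b : C) (Z : List C) (hZ : ∀ z ∈ Z, z ∈ Subgroup.center C)
    (h : PX ((a :: b :: Z).map (hq (Set.range v))) 1) (M : Subgroup C) (_ : M.Normal)
    (_ : M.FiniteIndex) :
    IsConj (QuotientGroup.mk' M a) (QuotientGroup.mk' M (Z.prod * b)⁻¹) := by
  have h0 : PX (((a :: b :: Z).map (Coprod.inl : C →* WG C n)).map
      (QuotientGroup.mk' (Subgroup.normalClosure (Set.range v)))) 1 := by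
    rw [List.map_map]
    exact h
  obtain ⟨y, hy, hPy⟩ := PX_lift _ (QuotientGroup.mk'_surjective _) h0
  rw [← MonoidHom.mem_ker, QuotientGroup.ker_mk'] at hy
  obtain ⟨l, hl, rfl⟩ := PX_pull _ hPy
  obtain ⟨p, l1, rfl, hp, hl1⟩ := List.map_eq_cons_iff.mp hl
  obtain ⟨q, l2, rfl, hq2, hl2⟩ := List.map_eq_cons_iff.mp hl1
  have hfin : Finite (C ⧸ M) := inferInstance
  have h7 := rel_map (QuotientGroup.mk' M) v (p :: q :: l2) hy
  have h8 := fin_two (fun j => wmap n (QuotientGroup.mk' M) (v j))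
    (det_map (QuotientGroup.mk' M) v hdet)
    (wmap n (QuotientGroup.mk' M) p.1, QuotientGroup.mk' M p.2)
    (wmap n (QuotientGroup.mk' M) q.1, QuotientGroup.mk' M q.2) [] []
    (l2.map (fun x => (wmap n (QuotientGroup.mk' M) x.1, QuotientGroup.mk' M x.2)))
    (by simp) (by simp) (by
      intro y hy
      rw [List.mem_map] at hy
      obtain ⟨x, hx, rfl⟩ := hy
      rw [Subgroup.mem_center_iff]
      intro g
      obtain ⟨g, rfl⟩ := QuotientGroup.mk'_surjective _ g
      have hx2 : x.2 ∈ Subgroup.center C := hZ _ (by rw [← hl2]; exact List.mem_map.mpr ⟨x, hx, rfl⟩)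
      change QuotientGroup.mk' M g * QuotientGroup.mk' M x.2
        = QuotientGroup.mk' M x.2 * QuotientGroup.mk' M g
      rw [← map_mul, ← map_mul, Subgroup.mem_center_iff.mp hx2 g])
    (by simpa using h7)
  have h9 : ((l2.map (fun x => (wmap n (QuotientGroup.mk' M) x.1,
      QuotientGroup.mk' M x.2))).map Prod.snd).prod
      = QuotientGroup.mk' M Z.prod := by
    rw [map_list_prod, ← hl2, List.map_map, List.map_map]
    rfl
  rw [h9] at h8
  simp only [List.map_nil, List.prod_nil, one_mul] at h8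
  rw [hp, hq2, ← map_mul, ← map_inv] at h8
  exact h8

theorem split_nc (f : C →* G) (L : List C) : ∃ A Z : List C, L.Perm (A ++ Z) ∧
    A.length = nc (L.map f) ∧ ∀ z ∈ Z, f z ∈ Subgroup.center G := by
  induction L with
  | nil => exact ⟨[], [], by simp, rfl, by simp⟩
  | cons a L ih =>
    obtain ⟨A, Z, h1, h2, h3⟩ := ih
    by_cases ha : f a ∈ Subgroup.center G
    · refine ⟨A, a :: Z, (h1.cons a).trans List.perm_middle.symm, ?_, ?_⟩
      · rw [List.map_cons, nc_cons_of_mem _ ha, h2]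
      · intro z hz
        rcases List.mem_cons.mp hz with rfl | hz
        · exact ha
        · exact h3 z hz
    · refine ⟨a :: A, Z, h1.cons a, ?_, h3⟩
      rw [List.map_cons, nc_cons_of_notMem _ ha, List.length_cons, h2]

theorem central_PX (f : C →* G) (hf : Function.Injective f) (v : Fin n → WG C n)
    (hconj : ∀ (a b : C) (Z : List C), (∀ z ∈ Z, z ∈ Subgroup.center C) →
      PX ((a :: b :: Z).map (hq (Set.range v))) 1 → IsConj (f a) (f (Z.prod * b)⁻¹))
    (L : List C) (hn : nc (L.map f) ≤ 2) (h : PX (L.map (hq (Set.range v))) 1) :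
    PX (L.map f) 1 := by
  have key : ∀ (a b : C) (Z : List C), (∀ z ∈ Z, f z ∈ Subgroup.center G) →
      PX ((a :: b :: Z).map (hq (Set.range v))) 1 → PX ((a :: b :: Z).map f) 1 := by
    intro a b Z hZ hP
    have hZ' : ∀ z ∈ Z, z ∈ Subgroup.center C := by
      intro z hz
      rw [Subgroup.mem_center_iff]
      intro g
      apply hf
      rw [map_mul, map_mul]
      exact Subgroup.mem_center_iff.mp (hZ z hz) (f g)
    obtain ⟨c, hc⟩ := isConj_iff.mp (hconj a b Z hZ' hP)
    rw [List.map_cons, List.map_cons]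
    refine PX_cons.mpr ⟨c, _, PX_cons.mpr ⟨f Z.prod, _, PX_prod _, rfl⟩, ?_⟩
    rw [hc, map_list_prod, map_inv, map_mul, map_list_prod]
    group
  obtain ⟨A, Z, h1, h2, h3⟩ := split_nc f L
  rw [← h2] at hn
  have h4 := PX_perm (h1.map (hq (Set.range v))) h
  refine PX_perm (h1.map f).symm ?_
  rcases A with _ | ⟨a, _ | ⟨b, _ | ⟨c, A⟩⟩⟩
  · have h5 : PX (((1 : C) :: 1 :: Z).map (hq (Set.range v))) 1 := by
      rw [List.map_cons, List.map_cons, map_one, PX_one_cons, PX_one_cons]
      exact h4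
    have h6 := key 1 1 Z h3 h5
    rw [List.map_cons, List.map_cons, map_one, PX_one_cons, PX_one_cons] at h6
    exact h6
  · have h5 : PX ((a :: (1 : C) :: Z).map (hq (Set.range v))) 1 := by
      refine PX_perm (List.Perm.swap _ _ _) ?_
      rw [map_one, PX_one_cons]
      exact h4
    have h6 := PX_perm (List.Perm.swap _ _ _) (key a 1 Z h3 h5)
    rw [map_one, PX_one_cons] at h6
    exact h6
  · exact key a b Z h3 h4
  · simp only [List.length_cons] at hn
    omega

theorem flat_main (N : Subgroup G) [hNn : N.Normal] (C : Subgroup G)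
    (hsep : ∀ x y : C.map (QuotientGroup.mk' N),
      (∀ (M : Subgroup (C.map (QuotientGroup.mk' N))) (_ : M.Normal), M.FiniteIndex →
        IsConj (QuotientGroup.mk' M x) (QuotientGroup.mk' M y)) →
      (∀ (k : ℕ) (ρ : C.map (QuotientGroup.mk' N) →* Matrix.unitaryGroup (Fin k) ℂ),
        IsConj (ρ x) (ρ y)) →
      IsConj (x : G ⧸ N) (y : G ⧸ N))
    (w : Fin n → WG G n)
    (hdet : (Matrix.of fun i j => Multiplicative.toAdd (expo G n i (w j))).det ≠ 0)
    (hw : ∀ j, w j ∈ Subgroup.closure ((fun g : G => (Coprod.inl g : WG G n)) '' (C : Set G) ∪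
      Set.range (fun k : Fin n => (Coprod.inr (FreeGroup.of k) : WG G n))))
    (a b : G) (Z : List G) (hN : ∀ x, PX Z x ↔ Z.prod⁻¹ * x ∈ N)
    (h : PX ((a :: b :: Z).map (hq (Set.range w))) 1) : PX (a :: b :: Z) 1 := by
  let π : G →* G ⧸ N := QuotientGroup.mk' N
  let f : C.map π →* G ⧸ N := (C.map π).subtype
  have hf : Function.Injective f := Subtype.val_injective
  have hdet1 := det_map π w hdet
  -- the words modulo `N` have coefficients in the image of `C`
  have hw1 : ∀ j, ∃ v : WG (C.map π) n, wmap n f v = wmap n π (w j) := by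
    intro j
    have hj := hw j
    generalize w j = x at hj
    induction hj using Subgroup.closure_induction with
    | mem x hx =>
      rcases hx with ⟨c, hc, rfl⟩ | ⟨k, rfl⟩
      · exact ⟨Coprod.inl ⟨π c, c, hc, rfl⟩, rfl⟩
      · exact ⟨Coprod.inr (FreeGroup.of k), rfl⟩
    | one => exact ⟨1, by rw [map_one, map_one]⟩
    | mul x y _ _ hx hy =>
      obtain ⟨u, hu⟩ := hx
      obtain ⟨u', hu'⟩ := hy
      exact ⟨u * u', by rw [map_mul, map_mul, hu, hu']⟩
    | inv x _ hx =>
      obtain ⟨u, hu⟩ := hx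
      exact ⟨u⁻¹, by rw [map_inv, map_inv, hu]⟩
  choose v hv using hw1
  have hdet2 : (Matrix.of fun i j => Multiplicative.toAdd (expo (C.map π) n i (v j))).det ≠ 0 := by
    have : (Matrix.of fun i j => Multiplicative.toAdd (expo (C.map π) n i (v j)))
        = (Matrix.of fun i j => Multiplicative.toAdd (expo (G ⧸ N) n i (wmap n π (w j)))) := by
      ext i j
      simp only [Matrix.of_apply]
      rw [← hv, wmap_expo]
    rw [this]
    exact hdet1
  have hrange : Coprod.map f (MonoidHom.id (FreeGroup (Fin n))) '' Set.range v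
      = Set.range fun j => wmap n π (w j) := by
    rw [← Set.range_comp]
    congr 1
    funext j
    exact hv j
  -- the relation modulo `N`
  have hrel : PX (((a :: b :: Z).map π).map (hq (Set.range fun j => wmap n π (w j)))) 1 := by
    have h0 : PX (((a :: b :: Z).map (Coprod.inl : G →* WG G n)).map
        (QuotientGroup.mk' (Subgroup.normalClosure (Set.range w)))) 1 := by
      rw [List.map_map]
      exact h
    obtain ⟨y, hy, hPy⟩ := PX_lift _ (QuotientGroup.mk'_surjective _) h0
    rw [← MonoidHom.mem_ker, QuotientGroup.ker_mk'] at hy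
    obtain ⟨l, hl, rfl⟩ := PX_pull _ hPy
    have h1 := rel_map π w l hy
    have h2 := PX_map (QuotientGroup.mk' (Subgroup.normalClosure
      (Set.range fun j => wmap n π (w j)))) (PX_of_pc (Coprod.inl : G ⧸ N →* WG (G ⧸ N) n)
        (l.map (fun x => (wmap n π x.1, π x.2))))
    have h3 : QuotientGroup.mk' (Subgroup.normalClosure (Set.range fun j => wmap n π (w j)))
        (pc Coprod.inl (l.map (fun x => (wmap n π x.1, π x.2)))) = 1 := by
      rw [← MonoidHom.mem_ker, QuotientGroup.ker_mk']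
      exact h1
    rw [h3, List.map_map, List.map_map, List.map_map] at h2
    rw [← hl, List.map_map, List.map_map]
    exact h2
  have hcen : ∀ z ∈ Z.map π, z ∈ Subgroup.center (G ⧸ N) := by
    intro z' hz'
    obtain ⟨z, hz, rfl⟩ := List.mem_map.mp hz'
    rw [Subgroup.mem_center_iff]
    intro g
    obtain ⟨g, rfl⟩ := QuotientGroup.mk'_surjective N g
    have h4 : π (z⁻¹ * (g * z * g⁻¹)) = 1 := by
      rw [← MonoidHom.mem_ker, QuotientGroup.ker_mk']
      exact coset_cen N hN hz g
    rw [map_mul, map_mul, map_mul, map_inv, map_inv] at h4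
    have h5 : π g * π z * (π g)⁻¹ = π z := by
      have := eq_inv_of_mul_eq_one_right h4
      rw [inv_inv] at this
      exact this
    exact mul_inv_eq_iff_eq_mul.mp h5
  have hn : nc ((a :: b :: Z).map π) ≤ 2 := by
    rw [List.map_cons, List.map_cons]
    have h0 : nc (Z.map π) = 0 := by
      generalize Z.map π = Z' at hcen
      induction Z' with
      | nil => rfl
      | cons z Z' ih =>
        rw [nc_cons_of_mem _ (hcen z List.mem_cons_self)]
        exact ih (fun z hz => hcen z (List.mem_cons_of_mem _ hz))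
    have h1 := nc_cons_le (π a) (π b :: Z.map π)
    have h2 := nc_cons_le (π b) (Z.map π)
    omega
  have hmain : PX ((a :: b :: Z).map π) 1 := by
    have hconj : ∀ (a b : C.map π) (Z : List (C.map π)), (∀ z ∈ Z, z ∈ Subgroup.center (C.map π)) →
        PX ((a :: b :: Z).map (hq (Set.range v))) 1 → IsConj (f a) (f (Z.prod * b)⁻¹) := by
      intro a b Z hZ hP
      exact hsep _ _ (central_conj v hdet2 a b Z hZ hP) (central_conj_rep v hdet2 a b Z hZ hP)
    refine stab2 f (Set.range v) (fun L => central_PX f hf v hconj L) _ hn ?_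
    rw [hrange]
    exact hrel
  obtain ⟨y, hy, hP⟩ := PX_lift π (QuotientGroup.mk'_surjective N) hmain
  rw [← MonoidHom.mem_ker, QuotientGroup.ker_mk'] at hy
  obtain ⟨c, y1, hy1, rfl⟩ := PX_cons.mp hP
  obtain ⟨d, y2, hy2, rfl⟩ := PX_cons.mp hy1
  refine PX_cons.mpr ⟨c, _, PX_cons.mpr ⟨d, y2 * (c * a * c⁻¹ * (d * b * d⁻¹ * y2))⁻¹,
    ?_, rfl⟩, by group⟩
  rw [hN, ← mul_assoc]
  exact N.mul_mem ((hN _).mp hy2) (N.inv_mem hy)

theorem PX_ofFn {Γ : Type*} [Group Γ] {r : ℕ} (g : Fin r → Γ) (x : Γ) :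
    PX (List.ofFn g) x ↔ ∃ y : Fin r → Γ, x = (List.ofFn fun i => y i * g i * (y i)⁻¹).prod := by
  constructor
  · rintro ⟨l', hl', rfl⟩
    have hlen : l'.length = r := by
      have := congrArg List.length hl'
      simpa using this
    subst hlen
    refine ⟨fun i => (l'.get i).1, ?_⟩
    have h2 : List.ofFn (fun i => ((l'.get i).1, g i)) = l' := by
      have h3 : (fun i : Fin l'.length => ((l'.get i).1, g i)) = l'.get := by
        funext i
        have h4 : (l'.map Prod.snd)[(i : ℕ)]'(by simp) = g i := by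
          simp only [hl']
          simp
        rw [List.getElem_map] at h4
        exact Prod.ext rfl h4.symm
      rw [h3, List.ofFn_get]
    conv_lhs => rw [← h2]
    rw [pc_ofFn]
    rfl
  · rintro ⟨y, rfl⟩
    refine ⟨List.ofFn (fun i => (y i, g i)), ?_, ?_⟩
    · rw [List.map_ofFn]
      rfl
    · rw [pc_ofFn]
      rfl

theorem flat_final (w : Fin n → WG G n)
    (hdet : (Matrix.of fun i j => Multiplicative.toAdd (expo G n i (w j))).det ≠ 0)
    (C : Subgroup G)
    (hw : ∀ j, w j ∈ Subgroup.closure ((fun g : G => (Coprod.inl g : WG G n)) '' (C : Set G) ∪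
      Set.range (fun k : Fin n => (Coprod.inr (FreeGroup.of k) : WG G n))))
    (N : Subgroup G) [hNn : N.Normal]
    (hsep : ∀ x y : C.map (QuotientGroup.mk' N),
      (∀ (M : Subgroup (C.map (QuotientGroup.mk' N))) (_ : M.Normal), M.FiniteIndex →
        IsConj (QuotientGroup.mk' M x) (QuotientGroup.mk' M y)) →
      (∀ (k : ℕ) (ρ : C.map (QuotientGroup.mk' N) →* Matrix.unitaryGroup (Fin k) ℂ),
        IsConj (ρ x) (ρ y)) →
      IsConj (x : G ⧸ N) (y : G ⧸ N))
    (a b : G) (r : ℕ) (g : Fin r → G)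
    (hg : ∀ x : G, (∃ y : Fin r → G, x = (List.ofFn fun i => y i * g i * (y i)⁻¹).prod) ↔
      (List.ofFn g).prod⁻¹ * x ∈ N)
    (hH : ∃ (p q : Hq G (Fin n) (Set.range w)) (h : Fin r → Hq G (Fin n) (Set.range w)),
      p * hq (Set.range w) a * p⁻¹ * (q * hq (Set.range w) b * q⁻¹) *
        (List.ofFn (fun i => h i * hq (Set.range w) (g i) * (h i)⁻¹)).prod = 1) :
    ∃ (p q : G) (y : Fin r → G), p * a * p⁻¹ * (q * b * q⁻¹) *
      (List.ofFn (fun i => y i * g i * (y i)⁻¹)).prod = 1 := by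
  obtain ⟨p, q, h, hh⟩ := hH
  have h1 : PX ((a :: b :: List.ofFn g).map (hq (Set.range w))) 1 := by
    rw [List.map_cons, List.map_cons]
    refine PX_cons.mpr ⟨p, _, PX_cons.mpr ⟨q,
      (List.ofFn (fun i => h i * hq (Set.range w) (g i) * (h i)⁻¹)).prod, ?_, rfl⟩, ?_⟩
    · rw [List.map_ofFn]
      exact (PX_ofFn _ _).mpr ⟨h, rfl⟩
    · rw [← hh, mul_assoc]
  have h2 := flat_main N C hsep w hdet hw a b (List.ofFn g)
    (fun x => (PX_ofFn g x).trans (hg x)) h1
  obtain ⟨p', y1, hy1, h3⟩ := PX_cons.mp h2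
  obtain ⟨q', y2, hy2, rfl⟩ := PX_cons.mp hy1
  obtain ⟨y, rfl⟩ := (PX_ofFn g y2).mp hy2
  refine ⟨p', q', y, ?_⟩
  rw [h3]
  group

end Flat

end Pool.Agent.H76.Planar
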