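import Pool.Agent.H76.Planar.Del

/-! Conservative homomorphisms and free products with free groups. -/

set_option autoImplicit false

namespace Pool.Agent.H76.Planar

open Pool.Agent.H76.Ker Monoid

universe u v w

section Val

variable {B : Type u} {X : Type v} [Group B]

/-- Value of a letter. -/
def val : Lt B X → Coprod B (FreeGroup X)
  | Sum.inl b => Coprod.inl b
  | Sum.inr (x, true) => Coprod.inr (FreeGroup.of x)
  | Sum.inr (x, false) => (Coprod.inr (FreeGroup.of x))⁻¹

/-- Value of a word. -/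
def vl (u : List (Lt B X)) : Coprod B (FreeGroup X) := (u.map val).prod

@[simp] theorem vl_nil : vl ([] : List (Lt B X)) = 1 := rfl

@[simp] theorem vl_cons (c : Lt B X) (u : List (Lt B X)) : vl (c :: u) = val c * vl u := by
  simp [vl]

@[simp] theorem vl_append (u u' : List (Lt B X)) : vl (u ++ u') = vl u * vl u' := by
  simp [vl]

theorem val_bar (y : X × Bool) : val (Sum.inr (bar y) : Lt B X) = (val (Sum.inr y))⁻¹ := by
  obtain ⟨x, e⟩ := y
  cases e <;> simp [bar, val]

theorem vl_surj (g : Coprod B (FreeGroup X)) : ∃ u : List (Lt B X), vl u = g := by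
  induction g using Coprod.induction_on with
  | inl b => exact ⟨[Sum.inl b], by simp [val]⟩
  | inr y =>
    have : ∀ L : List (X × Bool), ∃ u : List (Lt B X), vl u = Coprod.inr (FreeGroup.mk L) := by
      intro L
      induction L with
      | nil => exact ⟨[], by rw [vl_nil, ← FreeGroup.one_eq_mk, map_one]⟩
      | cons y L ih =>
        obtain ⟨u, hu⟩ := ih
        obtain ⟨x, e⟩ := y
        refine ⟨Sum.inr (x, e) :: u, ?_⟩
        rw [vl_cons, hu]
        have h1 : FreeGroup.mk ((x, e) :: L) = FreeGroup.mk [(x, e)] * FreeGroup.mk L := by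
          rw [FreeGroup.mul_mk, List.singleton_append]
        rw [h1, map_mul]
        congr 1
        cases e
        · have : FreeGroup.mk [(x, false)] = (FreeGroup.of x)⁻¹ := by
            rw [FreeGroup.of, FreeGroup.inv_mk]
            rfl
          rw [this, map_inv]
          rfl
        · rfl
    obtain ⟨L, rfl⟩ : ∃ L, FreeGroup.mk L = y := Quot.exists_rep y
    exact this L
  | mul x y hx hy =>
    obtain ⟨u, rfl⟩ := hx
    obtain ⟨u', rfl⟩ := hy
    exact ⟨u ++ u', vl_append _ _⟩

/-- Interchangeable words. -/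
def R (W W' : List (Lt B X)) : Prop :=
  ∀ (u : List (Lt B X)) (l : Multiset (Cycle (Lt B X))),
    M (cy (W ++ u) ::ₘ l) ↔ M (cy (W' ++ u) ::ₘ l)

theorem R.append {W1 W1' W2 W2' : List (Lt B X)} (h1 : R W1 W1') (h2 : R W2 W2') :
    R (W1 ++ W2) (W1' ++ W2') := by
  intro u l
  rw [List.append_assoc, h1, cy_rot W1', List.append_assoc, h2]
  have : cy (W2' ++ (u ++ W1')) = cy (W1' ++ W2' ++ u) :=
    cy_eq (W2' ++ u) W1' (by simp) (by simp)
  rw [this]

/-- The congruence of interchangeable words. -/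
def cR : Con (FreeMonoid (Lt B X)) where
  r W W' := R (FreeMonoid.toList W) (FreeMonoid.toList W')
  iseqv :=
    { refl := fun _ _ _ => Iff.rfl
      symm := fun h u l => (h u l).symm
      trans := fun h h' u l => (h u l).trans (h' u l) }
  mul' := fun h1 h2 => R.append h1 h2

theorem R_bw {W W' : List B} (h : W.prod = W'.prod) : R (bw X W) (bw X W') := by
  intro u l
  exact ⟨fun h1 => bw_aux W W' h _ h1 u l rfl, fun h1 => bw_aux W' W h.symm _ h1 u l rfl⟩

theorem R_del (s : X × Bool) : R ([Sum.inr s, Sum.inr (bar s)] : List (Lt B X)) [] := by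
  intro u l
  constructor
  · intro h
    exact del_aux s _ h u l rfl
  · intro h
    have := M.split s [] u 0 l M.nil h
    rw [zero_add] at this
    exact this

/-- The quotient monoid. -/
abbrev Qm (B : Type u) (X : Type v) [Group B] := (cR (B := B) (X := X)).Quotient

/-- The class of a letter. -/
def cl (c : Lt B X) : Qm B X := (cR (B := B) (X := X)).mk' (FreeMonoid.of c)

def qB : B →* Qm B X where
  toFun b := cl (Sum.inl b)
  map_one' := by
    change (cR (B := B) (X := X)).mk' (FreeMonoid.of (Sum.inl 1)) = 1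
    rw [← map_one (cR (B := B) (X := X)).mk']
    exact (Con.eq _).mpr (R_bw (X := X) (W := [1]) (W' := []) (by simp))
  map_mul' a b := by
    change (cR (B := B) (X := X)).mk' _ = (cR (B := B) (X := X)).mk' _ *
      (cR (B := B) (X := X)).mk' _
    rw [← map_mul (cR (B := B) (X := X)).mk']
    exact (Con.eq _).mpr (R_bw (X := X) (W := [a * b]) (W' := [a, b]) (by simp))

theorem cl_bar (s : X × Bool) : cl (Sum.inr s : Lt B X) * cl (Sum.inr (bar s)) = 1 := by
  change (cR (B := B) (X := X)).mk' _ * (cR (B := B) (X := X)).mk' _ = 1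
  rw [← map_mul (cR (B := B) (X := X)).mk', ← map_one (cR (B := B) (X := X)).mk']
  exact (Con.eq _).mpr (R_del s)

def qX (x : X) : (Qm B X)ˣ where
  val := cl (Sum.inr (x, true))
  inv := cl (Sum.inr (x, false))
  val_inv := cl_bar (x, true)
  inv_val := cl_bar (x, false)

/-- The classifying homomorphism. -/
def qH : Coprod B (FreeGroup X) →* Qm B X :=
  Coprod.lift qB ((Units.coeHom (Qm B X)).comp (FreeGroup.lift qX))

theorem qH_val (c : Lt B X) : qH (val c) = cl c := by
  rcases c with b | ⟨x, e⟩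
  · rfl
  · cases e
    · change qH ((Coprod.inr (FreeGroup.of x))⁻¹) = _
      rw [← map_inv]
      change Units.coeHom (Qm B X) (FreeGroup.lift qX (FreeGroup.of x)⁻¹) = _
      rw [map_inv, FreeGroup.lift_apply_of]
      rfl
    · change Units.coeHom (Qm B X) (FreeGroup.lift qX (FreeGroup.of x)) = _
      rw [FreeGroup.lift_apply_of]
      rfl

theorem qH_vl (W : List (Lt B X)) :
    qH (vl W) = (cR (B := B) (X := X)).mk' (FreeMonoid.ofList W) := by
  induction W with
  | nil => rw [vl_nil, map_one]; rfl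
  | cons c W ih =>
    rw [vl_cons, map_mul, qH_val, ih]
    change (cR (B := B) (X := X)).mk' _ * _ = _
    rw [← map_mul]
    rfl

theorem R_of_vl {W W' : List (Lt B X)} (h : vl W = vl W') : R W W' := by
  have h1 : (cR (B := B) (X := X)).mk' (FreeMonoid.ofList W)
      = (cR (B := B) (X := X)).mk' (FreeMonoid.ofList W') := by
    rw [← qH_vl, ← qH_vl, h]
  exact (Con.eq _).mp h1

theorem M.congr {W W' : List (Lt B X)} {l : Multiset (Cycle (Lt B X))} (h : vl W = vl W')
    (h1 : M (cy W ::ₘ l)) : M (cy W' ::ₘ l) := by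
  have := (R_of_vl h [] l).mp (by rwa [List.append_nil])
  rwa [List.append_nil] at this

theorem M.conj {C C' u : List (Lt B X)} {l : Multiset (Cycle (Lt B X))} (h : vl C' = (vl C)⁻¹)
    (h1 : M (cy (C ++ u ++ C') ::ₘ l)) : M (cy u ::ₘ l) := by
  have e1 : cy (C ++ u ++ C') = cy (C' ++ C ++ u) := cy_eq (C ++ u) C' (by simp) (by simp)
  rw [e1] at h1
  exact M.congr (by simp [h]) h1

theorem px_M (L : List (List (Lt B X))) : ∀ (u : List (Lt B X)) (g : Coprod B (FreeGroup X))
    (W : List (Lt B X)) (l : Multiset (Cycle (Lt B X))), PX ((u :: L).map vl) g → vl W = g →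
    M (cy W ::ₘ l) → M (((u :: L).map cy : Multiset (Cycle (Lt B X))) + l) := by
  induction L with
  | nil =>
    intro u g W l hp hW hM
    rw [List.map_cons, List.map_nil] at hp
    obtain ⟨c, y, hy, rfl⟩ := PX_cons.mp hp
    rw [PX_nil.mp hy, mul_one] at hW
    obtain ⟨C, rfl⟩ := vl_surj c
    obtain ⟨C', hC'⟩ := vl_surj (vl C)⁻¹
    have h1 : M (cy (C ++ u ++ C') ::ₘ l) := M.congr (by rw [hW]; simp [hC', mul_assoc]) hM
    have h2 := M.conj hC' h1
    rw [List.map_cons, List.map_nil, ← Multiset.cons_coe, Multiset.coe_nil, Multiset.cons_add,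
      zero_add]
    exact h2
  | cons u' L ih =>
    intro u g W l hp hW hM
    rw [List.map_cons] at hp
    obtain ⟨c, y, hy, rfl⟩ := PX_cons.mp hp
    obtain ⟨C, rfl⟩ := vl_surj c
    obtain ⟨C', hC'⟩ := vl_surj (vl C)⁻¹
    obtain ⟨Y, rfl⟩ := vl_surj y
    have h1 : M (cy ((C ++ u ++ C') ++ Y) ::ₘ l) := M.congr (by rw [hW]; simp [hC', mul_assoc]) hM
    have h2 := M.conj hC' (M.cut h1)
    rw [Multiset.cons_swap] at h2
    have h3 := ih u' (vl Y) Y (cy u ::ₘ l) hy rfl h2
    rw [Multiset.add_cons, ← Multiset.cons_add] at h3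
    exact h3

/-- Product-one relations in `B * F(X)` have planar decompositions. -/
theorem M_of_PX {L : List (List (Lt B X))} (h : PX (L.map vl) 1) :
    M ((L.map cy : List (Cycle (Lt B X))) : Multiset (Cycle (Lt B X))) := by
  cases L with
  | nil => exact M.base (X := X) ([] : List (List B)) (PX_nil.mpr rfl)
  | cons u L =>
    have := px_M L u 1 [] 0 h rfl M.nil
    rwa [add_zero] at this

end Val

section Cons

/-- A homomorphism reflecting all product-one relations between conjugacy classes. -/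
def Cons {G : Type u} {H : Type v} [Group G] [Group H] (φ : G →* H) : Prop :=
  ∀ L : List G, PX (L.map φ) 1 → PX L 1

theorem Cons.injective {G : Type u} {H : Type v} [Group G] [Group H] {φ : G →* H} (h : Cons φ) :
    Function.Injective φ := by
  rw [injective_iff_map_eq_one]
  intro g hg
  have h1 := h [g] (PX_cons.mpr ⟨1, 1, PX_nil.mpr rfl, by simp [hg]⟩)
  obtain ⟨c, y, hy, h2⟩ := PX_cons.mp h1
  rw [PX_nil.mp hy, mul_one] at h2
  have h3 : g = c⁻¹ * 1 * c := by rw [h2]; group
  rw [h3]; group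

theorem Cons.comp {G H K : Type*} [Group G] [Group H] [Group K] {φ : G →* H} {ψ : H →* K}
    (h1 : Cons φ) (h2 : Cons ψ) : Cons (ψ.comp φ) := by
  intro L hL
  apply h1
  apply h2
  rw [List.map_map]
  exact hL

theorem Cons.of_comp {G H K : Type*} [Group G] [Group H] [Group K] {φ : G →* H} {ψ : H →* K}
    (h : Cons (ψ.comp φ)) : Cons φ := by
  intro L hL
  apply h
  have := PX_map ψ hL
  rw [List.map_map, map_one] at this
  exact this

variable {C : Type w} {B : Type u} {X : Type v} [Group C] [Group B] (ι : C →* B)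

/-- Change of letters. -/
abbrev mp (k : List (Lt C X)) : List (Lt B X) := k.map (Sum.map ι id)

theorem mp_inr {c : Lt C X} {y : X × Bool} (h : (Sum.inr y : Lt B X) = Sum.map ι id c) :
    c = Sum.inr y := by
  rcases c with c | c
  · simp at h
  · simpa using h.symm

theorem mp_split {k : List (Lt C X)} {l1 l2 : List (Lt B X)} {y : X × Bool}
    (h : mp ι k = l1 ++ Sum.inr y :: l2) :
    ∃ k1 k2, k = k1 ++ Sum.inr y :: k2 ∧ l1 = mp ι k1 ∧ l2 = mp ι k2 := by
  obtain ⟨k1, k2', rfl, rfl, h2⟩ := List.map_eq_append_iff.mp h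
  obtain ⟨c, k2, rfl, h3, rfl⟩ := List.map_eq_cons_iff.mp h2
  rw [mp_inr ι h3.symm]
  exact ⟨k1, k2, rfl, rfl, rfl⟩

theorem lift_cons {k : List (Lt C X)} {v : List (Lt B X)} {y : X × Bool}
    (h : cy (Sum.inr y :: v) = cy (mp ι k)) :
    ∃ k1 k2, k = k1 ++ Sum.inr y :: k2 ∧ v = mp ι (k2 ++ k1) := by
  obtain ⟨l1, l2, h1, rfl⟩ := cy_cons h
  obtain ⟨k1, k2, rfl, rfl, rfl⟩ := mp_split ι h1
  exact ⟨k1, k2, rfl, by simp [mp]⟩

theorem mp_vl (k : List (Lt C X)) :
    vl (mp ι k) = Coprod.map ι (MonoidHom.id (FreeGroup X)) (vl k) := by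
  induction k with
  | nil => simp
  | cons c k ih =>
    rw [mp, List.map_cons, vl_cons, vl_cons, map_mul, ← ih]
    congr 1
    rcases c with c | ⟨x, e⟩
    · rfl
    · cases e
      · change (Coprod.inr (FreeGroup.of x))⁻¹ = Coprod.map ι _ (Coprod.inr (FreeGroup.of x))⁻¹
        rw [map_inv]
        rfl
      · rfl

/-- Lists of words over `C` with given cyclic images. -/
theorem lift_mem {K : List (List (Lt C X))} {c : Cycle (Lt B X)} {l : Multiset (Cycle (Lt B X))}
    (h : ((K.map fun k => cy (mp ι k) : List (Cycle (Lt B X))) : Multiset (Cycle (Lt B X)))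
      = c ::ₘ l) :
    ∃ k K', K.Perm (k :: K') ∧ cy (mp ι k) = c ∧
      ((K'.map fun k => cy (mp ι k) : List (Cycle (Lt B X))) : Multiset (Cycle (Lt B X))) = l := by
  have hmem : c ∈ (K.map fun k => cy (mp ι k) : List (Cycle (Lt B X))) := by
    have : c ∈ c ::ₘ l := Multiset.mem_cons_self _ _
    rw [← h] at this
    exact this
  obtain ⟨k, hk, hkc⟩ := List.mem_map.mp hmem
  obtain ⟨s, t, rfl⟩ := List.append_of_mem hk
  have hperm : (s ++ k :: t).Perm (k :: (s ++ t)) := List.perm_middle
  refine ⟨k, s ++ t, hperm, hkc, ?_⟩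
  have h2 : (((s ++ k :: t).map fun k => cy (mp ι k) : List (Cycle (Lt B X))) :
      Multiset (Cycle (Lt B X)))
      = cy (mp ι k) ::ₘ (((s ++ t).map fun k => cy (mp ι k) : List (Cycle (Lt B X))) :
      Multiset (Cycle (Lt B X))) := by
    rw [Multiset.cons_coe, Multiset.coe_eq_coe]
    exact hperm.map _
  rw [h2] at h
  change cy (mp ι k) = c at hkc
  rw [hkc, Multiset.cons_inj_right] at h
  exact h

theorem lift_add {l2 : Multiset (Cycle (Lt B X))} : ∀ (l1 : Multiset (Cycle (Lt B X)))
    {K : List (List (Lt C X))},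
    ((K.map fun k => cy (mp ι k) : List (Cycle (Lt B X))) : Multiset (Cycle (Lt B X)))
      = l1 + l2 →
    ∃ K1 K2, K.Perm (K1 ++ K2) ∧
      ((K1.map fun k => cy (mp ι k) : List (Cycle (Lt B X))) : Multiset (Cycle (Lt B X))) = l1 ∧
      ((K2.map fun k => cy (mp ι k) : List (Cycle (Lt B X))) : Multiset (Cycle (Lt B X))) = l2 := by
  intro l1
  induction l1 using Multiset.induction_on with
  | empty =>
    intro K h
    rw [zero_add] at h
    exact ⟨[], K, List.Perm.refl _, rfl, h⟩
  | cons c l1 ih =>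
    intro K h
    rw [Multiset.cons_add] at h
    obtain ⟨k, K', hp, hk, hK'⟩ := lift_mem ι h
    obtain ⟨K1, K2, hp', h1, h2⟩ := ih hK'
    refine ⟨k :: K1, K2, hp.trans (hp'.cons _), ?_, h2⟩
    rw [List.map_cons, ← Multiset.cons_coe, h1, hk]

theorem PX_entry' {G : Type*} [Group G] {x x' c g : G} {L : List G} (h : PX (x :: L) g)
    (hx : x' = c * x * c⁻¹) : PX (x' :: L) g := by
  obtain ⟨d, y, hy, h1⟩ := PX_cons.mp h
  refine PX_cons.mpr ⟨d * c⁻¹, y, hy, ?_⟩
  rw [h1, hx]
  group

theorem lift_base : ∀ (K : List (List (Lt C X))) (L0 : List (List B)) (g : B),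
    ((K.map fun k => cy (mp ι k) : List (Cycle (Lt B X))) : Multiset (Cycle (Lt B X))) = bm X L0 →
    PX (L0.map List.prod) g →
    ∃ K0 : List (List C), K = K0.map (fun k => k.map Sum.inl) ∧
      PX ((K0.map List.prod).map ι) g := by
  intro K
  induction K with
  | nil =>
    intro L0 g h hp
    refine ⟨[], rfl, ?_⟩
    rw [List.map_nil, Multiset.coe_nil] at h
    have h1 := h.symm
    rw [Multiset.coe_eq_zero, List.map_eq_nil_iff] at h1
    subst h1
    exact hp
  | cons k K ih =>
    intro L0 g h hp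
    have hmem : cy (mp ι k) ∈ (L0.map fun u => cy (bw X u) : List (Cycle (Lt B X))) := by
      have : cy (mp ι k) ∈ bm X L0 := by rw [← h]; simp
      exact this
    obtain ⟨u, hu, hua⟩ := List.mem_map.mp hmem
    change cy (bw X u) = cy (mp ι k) at hua
    classical
    have hperm : L0.Perm (u :: L0.erase u) := List.perm_cons_erase hu
    have h1 : ((K.map fun k => cy (mp ι k) : List (Cycle (Lt B X))) :
        Multiset (Cycle (Lt B X))) = bm X (L0.erase u) := by
      have h2 : bm X L0 = cy (bw X u) ::ₘ bm X (L0.erase u) := by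
        rw [bm, bm, Multiset.cons_coe, Multiset.coe_eq_coe]
        exact hperm.map _
      rw [h2, hua, List.map_cons, ← Multiset.cons_coe, Multiset.cons_inj_right] at h
      exact h
    have hp' : PX ((u :: L0.erase u).map List.prod) g := PX_perm (hperm.map _) hp
    rw [List.map_cons] at hp'
    obtain ⟨d, y, hy, hg⟩ := PX_cons.mp hp'
    obtain ⟨K0, rfl, hK0⟩ := ih _ y h1 hy
    obtain ⟨j, hj, hj'⟩ := List.isRotated_iff_mod.mp (Cycle.coe_eq_coe.mp hua)
    rw [List.length_map] at hj
    have h3 : mp ι k = bw X (u.drop j ++ u.take j) := by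
      rw [← hj', ← List.map_rotate, List.rotate_eq_drop_append_take hj]
    have h4 : ∀ (k : List (Lt C X)) (b : List B), mp ι k = bw X b →
        ∃ k0 : List C, k = k0.map Sum.inl ∧ k0.map ι = b := by
      intro k
      induction k with
      | nil =>
        intro b hb
        refine ⟨[], rfl, ?_⟩
        cases b with
        | nil => rfl
        | cons x b => simp [mp, bw] at hb
      | cons c k ih =>
        intro b hb
        cases b with
        | nil => simp [mp, bw] at hb
        | cons x b =>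
          rw [mp, bw, List.map_cons, List.map_cons, List.cons.injEq] at hb
          obtain ⟨h5, h6⟩ := hb
          obtain ⟨k0, rfl, hk0⟩ := ih b h6
          rcases c with c | c
          · refine ⟨c :: k0, rfl, ?_⟩
            rw [List.map_cons, hk0]
            congr 1
            simpa using h5
          · simp at h5
    obtain ⟨k0, rfl, hk0⟩ := h4 k _ h3
    refine ⟨k0 :: K0, rfl, ?_⟩
    have h5 : PX (u.prod :: (K0.map List.prod).map ι) g := PX_cons.mpr ⟨d, y, hK0, hg⟩
    rw [List.map_cons, List.map_cons]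
    refine PX_entry' h5 (c := (u.take j).prod⁻¹) ?_
    rw [map_list_prod, hk0]
    have h6 := prod_rot (u.take j) (u.drop j)
    rw [List.take_append_drop] at h6
    exact h6

theorem extract (hι : Cons ι) : ∀ S : Multiset (Cycle (Lt B X)), M S →
    ∀ K : List (List (Lt C X)),
      ((K.map fun k => cy (mp ι k) : List (Cycle (Lt B X))) : Multiset (Cycle (Lt B X))) = S →
      PX (K.map vl) 1 := by
  intro S hS
  induction hS with
  | base L0 h =>
    intro K hK
    obtain ⟨K0, rfl, hK0⟩ := lift_base ι K L0 1 hK h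
    have h1 := hι _ hK0
    have h2 := PX_map (Coprod.inl : C →* Coprod C (FreeGroup X)) h1
    rw [List.map_map, map_one] at h2
    rw [List.map_map]
    convert h2 using 2
    funext k
    simp only [Function.comp_apply]
    rw [map_list_prod, vl, List.map_map]
    rfl
  | merge y v v' l0 h ih =>
    intro K hK
    obtain ⟨k, K1, hp1, hk, hK1⟩ := lift_mem ι hK
    obtain ⟨k', K2, hp2, hk', hK2⟩ := lift_mem ι hK1
    obtain ⟨k1, k2, rfl, rfl⟩ := lift_cons ι hk.symm
    obtain ⟨k1', k2', rfl, rfl⟩ := lift_cons ι hk'.symm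
    have h1 := ih (((k2 ++ k1) ++ (k2' ++ k1')) :: K2) (by
      rw [List.map_cons, ← Multiset.cons_coe, hK2, mp, List.map_append])
    rw [List.map_cons] at h1
    obtain ⟨d, z, hz, hg⟩ := PX_cons.mp h1
    refine PX_perm (List.Perm.map vl (hp1.trans (hp2.cons _))).symm ?_
    rw [List.map_cons, List.map_cons]
    set s := val (Sum.inr y : Lt C X) with hs
    refine PX_cons.mpr ⟨d * s⁻¹ * (vl k1)⁻¹, d * (s⁻¹ * vl k2' * vl k1') * d⁻¹ * z,
      PX_cons.mpr ⟨d * (vl k1')⁻¹, z, hz, ?_⟩, ?_⟩
    · rw [vl_append, vl_cons, val_bar, ← hs]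
      group
    · simp only [vl_append, vl_cons, ← hs] at hg ⊢
      rw [hg]
      group
  | split y v v' l1 l2 h h' ih ih' =>
    intro K hK
    obtain ⟨k, K1, hp1, hk, hK1⟩ := lift_mem ι hK
    obtain ⟨k1, k2, rfl, h2⟩ := lift_cons ι hk.symm
    obtain ⟨p, q, h3, rfl, rfl⟩ := mp_split ι h2.symm
    obtain ⟨Ka, Kb, hp2, ha, hb⟩ := lift_add ι l1 hK1
    have h4 := ih (p :: Ka) (by rw [List.map_cons, ← Multiset.cons_coe, ha])
    have h5 := ih' (q :: Kb) (by rw [List.map_cons, ← Multiset.cons_coe, hb])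
    rw [List.map_cons] at h4 h5
    obtain ⟨d, z, hz, hg⟩ := PX_cons.mp h4
    obtain ⟨e, z', hz', hg'⟩ := PX_cons.mp h5
    refine PX_perm (List.Perm.map vl (hp1.trans (hp2.cons _))).symm ?_
    rw [List.map_cons]
    set s := val (Sum.inr y : Lt C X) with hs
    have e1 : vl p = d⁻¹ * z⁻¹ * d := by
      have : z = (d * vl p * d⁻¹)⁻¹ := eq_inv_of_mul_eq_one_right hg.symm
      rw [this]; group
    have e2 : vl q = e⁻¹ * z'⁻¹ * e := by
      have : z' = (e * vl q * e⁻¹)⁻¹ := eq_inv_of_mul_eq_one_right hg'.symm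
      rw [this]; group
    have e3 : vl k2 * vl k1 = vl p * s⁻¹ * vl q := by
      rw [← vl_append, h3, vl_append, vl_cons, val_bar, ← hs]
      group
    have h6 : PX ((Kb ++ Ka).map vl) ((e⁻¹ * z' * e⁻¹⁻¹) * ((s * d⁻¹) * z * (s * d⁻¹)⁻¹)) := by
      rw [List.map_append]
      exact PX_append.mpr ⟨_, _, PX_conj hz' _, PX_conj hz _, rfl⟩
    have h7 := PX_perm (List.Perm.map vl (List.perm_append_comm (l₁ := Kb) (l₂ := Ka))) h6
    refine PX_cons.mpr ⟨(vl k1)⁻¹, _, h7, ?_⟩
    have e4 : (vl k1)⁻¹ * vl (k1 ++ Sum.inr y :: k2) * (vl k1)⁻¹⁻¹ = s * (vl k2 * vl k1) := by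
      rw [vl_append, vl_cons, ← hs]
      group
    rw [e4, e3, e1, e2]
    group

/-- **Stability under free products with free groups**: if `ι : C → B` reflects product-one
relations, so does `C * F(X) → B * F(X)`. -/
theorem Cons.free (hι : Cons ι) : Cons (Coprod.map ι (MonoidHom.id (FreeGroup X))) := by
  intro L hL
  have h1 : ∃ K : List (List (Lt C X)), K.map vl = L := by
    clear hL
    induction L with
    | nil => exact ⟨[], rfl⟩
    | cons g L ih =>
      obtain ⟨K, rfl⟩ := ih
      obtain ⟨k, rfl⟩ := vl_surj g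
      exact ⟨k :: K, rfl⟩
  obtain ⟨K, rfl⟩ := h1
  have h2 : PX ((K.map (mp ι)).map vl) 1 := by
    rw [List.map_map] at hL ⊢
    convert hL using 2
    funext k
    exact mp_vl ι k
  have h3 := M_of_PX h2
  rw [List.map_map] at h3
  exact extract ι hι _ h3 K rfl

end Cons

end Pool.Agent.H76.Planar
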