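import Pool.Agent.H76.Ker.PX

/-! A calculus of planar decompositions for products of conjugates in a free product `B * F(X)`.

A state is a multiset of cyclic words in letters from `B` and `X^{±1}`.  The predicate `M` says that
the words bound a planar surface: the letters `x`, `x⁻¹` are joined by bands (`merge`, `split`)
and the remaining boundary words in `B` are product-one in `B` (`base`). -/

set_option autoImplicit false

namespace Pool.Agent.H76.Planar

open Pool.Agent.H76.Ker

universe u v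

section Lists

variable {α : Type*}

/-- The cyclic word of a list. -/
abbrev cy (l : List α) : Cycle α := (l : Cycle α)

theorem cy_rot (p q : List α) : cy (p ++ q) = cy (q ++ p) :=
  Cycle.coe_eq_coe.mpr List.isRotated_append

theorem cy_eq (p q : List α) {l l' : List α} (h : l = p ++ q) (h' : l' = q ++ p) :
    cy l = cy l' := by
  subst h h'
  exact cy_rot p q

theorem app_mid {p q r s : List α} {y : α} (h : p ++ y :: q = r ++ s) :
    (∃ m, r = p ++ y :: m ∧ q = m ++ s) ∨ (∃ m, s = m ++ y :: q ∧ p = r ++ m) := by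
  rcases List.append_eq_append_iff.mp h with ⟨as, h1, h2⟩ | ⟨bs, h1, h2⟩
  · cases as with
    | nil =>
      right
      refine ⟨[], ?_, ?_⟩
      · simpa using h2.symm
      · simpa using h1.symm
    | cons x as =>
      left
      rw [List.cons_append, List.cons.injEq] at h2
      obtain ⟨rfl, h2⟩ := h2
      exact ⟨as, h1, h2⟩
  · right
    exact ⟨bs, h2, h1⟩

theorem cy_cons {y : α} {v l : List α} (h : cy (y :: v) = cy l) :
    ∃ l1 l2, l = l1 ++ y :: l2 ∧ v = l2 ++ l1 := by
  obtain ⟨n, hn, hl⟩ := List.isRotated_iff_mod.mp (Cycle.coe_eq_coe.mp h)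
  rw [List.rotate_eq_drop_append_take hn] at hl
  cases n with
  | zero =>
    refine ⟨[], v, ?_, by simp⟩
    rw [← hl]
    simp
  | succ m =>
    refine ⟨v.drop m, v.take m, ?_, ?_⟩
    · rw [← hl]
      simp
    · simp

theorem cy_cons_app {y : α} {v a b : List α} (h : cy (y :: v) = cy (a ++ b)) :
    (∃ a1 a2, a = a1 ++ y :: a2 ∧ v = a2 ++ b ++ a1) ∨
    (∃ b1 b2, b = b1 ++ y :: b2 ∧ v = b2 ++ a ++ b1) := by
  obtain ⟨l1, l2, h1, h2⟩ := cy_cons h
  rcases app_mid h1.symm with ⟨m, h3, h4⟩ | ⟨m, h3, h4⟩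
  · left
    exact ⟨l1, m, h3, by rw [h2, h4]⟩
  · right
    exact ⟨m, l2, h3, by rw [h2, h4, List.append_assoc]⟩

theorem cons_cases {c a : Cycle α} {s l : Multiset (Cycle α)} (h : c ::ₘ s = a ::ₘ l) :
    (c = a ∧ s = l) ∨ (∃ t, s = a ::ₘ t ∧ l = c ::ₘ t) := by
  rcases Multiset.cons_eq_cons.mp h with h | ⟨_, t, h1, h2⟩
  · exact Or.inl h
  · exact Or.inr ⟨t, h1, h2⟩

theorem add_cases {a : Cycle α} {s t l : Multiset (Cycle α)} (h : s + t = a ::ₘ l) :
    (∃ s', s = a ::ₘ s' ∧ l = s' + t) ∨ (∃ t', t = a ::ₘ t' ∧ l = s + t') := by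
  have hmem : a ∈ s + t := by rw [h]; exact Multiset.mem_cons_self _ _
  rcases Multiset.mem_add.mp hmem with h1 | h1
  · obtain ⟨s', rfl⟩ := Multiset.exists_cons_of_mem h1
    left
    refine ⟨s', rfl, ?_⟩
    rw [Multiset.cons_add, Multiset.cons_inj_right] at h
    exact h.symm
  · obtain ⟨t', rfl⟩ := Multiset.exists_cons_of_mem h1
    right
    refine ⟨t', rfl, ?_⟩
    rw [Multiset.add_cons, Multiset.cons_inj_right] at h
    exact h.symm

end Lists

section Def

variable {B : Type u} {X : Type v} [Group B]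

/-- Letters. -/
abbrev Lt (B : Type u) (X : Type v) := B ⊕ (X × Bool)

/-- The inverse letter. -/
def bar (y : X × Bool) : X × Bool := (y.1, !y.2)

@[simp] theorem bar_bar (y : X × Bool) : bar (bar y) = y := by
  cases y
  simp [bar]

/-- A word in `B`. -/
abbrev bw (X : Type v) (u : List B) : List (Lt B X) := u.map Sum.inl

/-- Multisets of cyclic words bounding a planar surface. -/
inductive M : Multiset (Cycle (Lt B X)) → Prop
  | base (L : List (List B)) (h : PX (L.map List.prod) 1) :
      M ((L.map fun u => cy (bw X u) : List (Cycle (Lt B X))) : Multiset (Cycle (Lt B X)))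
  | merge (y : X × Bool) (v v' : List (Lt B X)) (l : Multiset (Cycle (Lt B X)))
      (h : M (cy (v ++ v') ::ₘ l)) : M (cy (Sum.inr y :: v) ::ₘ cy (Sum.inr (bar y) :: v') ::ₘ l)
  | split (y : X × Bool) (v v' : List (Lt B X)) (l l' : Multiset (Cycle (Lt B X)))
      (h : M (cy v ::ₘ l)) (h' : M (cy v' ::ₘ l')) :
      M (cy (Sum.inr y :: (v ++ Sum.inr (bar y) :: v')) ::ₘ (l + l'))

theorem PX_entry {x x' c : B} {L : List B} (h : PX (x :: L) 1) (hx : x' = c * x * c⁻¹) :
    PX (x' :: L) 1 := by
  obtain ⟨d, y, hy, h1⟩ := PX_cons.mp h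
  refine PX_cons.mpr ⟨d * c⁻¹, y, hy, ?_⟩
  rw [h1, hx]
  group

theorem prod_rot (p q : List B) : (q ++ p).prod = p.prod⁻¹ * (p ++ q).prod * p.prod⁻¹⁻¹ := by
  rw [List.prod_append, List.prod_append]
  group

theorem base_cases {L : List (List B)} (h : PX (L.map List.prod) 1) {a : List (Lt B X)}
    {l : Multiset (Cycle (Lt B X))}
    (he : ((L.map fun u => cy (bw X u) : List (Cycle (Lt B X))) : Multiset (Cycle (Lt B X)))
      = cy a ::ₘ l) :
    ∃ (a' : List B) (L' : List (List B)), a = bw X a' ∧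
      l = ((L'.map fun u => cy (bw X u) : List (Cycle (Lt B X))) : Multiset (Cycle (Lt B X))) ∧
      PX ((a' :: L').map List.prod) 1 := by
  classical
  have hmem : cy a ∈ (L.map fun u => cy (bw X u) : List (Cycle (Lt B X))) := by
    have : cy a ∈ cy a ::ₘ l := Multiset.mem_cons_self _ _
    rw [← he] at this
    exact this
  obtain ⟨u, hu, hua⟩ := List.mem_map.mp hmem
  have hperm : L.Perm (u :: L.erase u) := List.perm_cons_erase hu
  have h1 : l = (((L.erase u).map fun u => cy (bw X u) : List (Cycle (Lt B X))) :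
      Multiset (Cycle (Lt B X))) := by
    have h2 : ((L.map fun u => cy (bw X u) : List (Cycle (Lt B X))) : Multiset (Cycle (Lt B X)))
        = cy (bw X u) ::ₘ (((L.erase u).map fun u => cy (bw X u) : List (Cycle (Lt B X))) :
      Multiset (Cycle (Lt B X))) := by
      rw [Multiset.cons_coe, Multiset.coe_eq_coe]
      exact hperm.map _
    rw [h2] at he
    change cy (bw X u) = cy a at hua
    rw [hua, Multiset.cons_inj_right] at he
    exact he.symm
  obtain ⟨k, hk, hk'⟩ := List.isRotated_iff_mod.mp (Cycle.coe_eq_coe.mp hua)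
  rw [List.length_map] at hk
  have h3 : a = bw X (u.drop k ++ u.take k) := by
    rw [← hk', ← List.map_rotate, List.rotate_eq_drop_append_take hk]
  refine ⟨u.drop k ++ u.take k, L.erase u, h3, h1, ?_⟩
  have h4 : PX ((u :: L.erase u).map List.prod) 1 := PX_perm (hperm.map _) h
  rw [List.map_cons] at h4 ⊢
  refine PX_entry h4 (c := (u.take k).prod⁻¹) ?_
  rw [prod_rot (u.take k) (u.drop k), List.take_append_drop]

theorem M.nil : M ((cy ([] : List (Lt B X))) ::ₘ 0) := by
  have := M.base (X := X) [([] : List B)] (PX_cons.mpr ⟨1, 1, PX_nil.mpr rfl, by simp⟩)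
  exact this

end Def

end Pool.Agent.H76.Planar
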