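import Pool.Agent.H76.Planar.Free

/-! Stability: product-one reflection only depends on the coefficient group. -/

set_option autoImplicit false

namespace Pool.Agent.H76.Planar

open Pool.Agent.H76.Ker Monoid

universe u v w

section Stab

theorem PX_of_pc {H Γ : Type*} [Group H] [Group Γ] (φ : Γ →* H) (l : List (H × Γ)) :
    PX ((l.map Prod.snd).map φ) (pc φ l) := by
  induction l with
  | nil => exact PX_nil.mpr rfl
  | cons x l ih =>
    rw [List.map_cons, List.map_cons, pc_cons]
    exact PX_cons.mpr ⟨x.1, _, ih, rfl⟩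

theorem PX_drop_ones {H : Type*} [Group H] {L L' : List H} (h : PX (L ++ L') 1)
    (hL' : ∀ x ∈ L', x = 1) : PX L 1 := by
  obtain ⟨y, z, hy, hz, h1⟩ := PX_append.mp h
  have hz1 : z = 1 := by
    clear h h1 hy
    induction L' generalizing z with
    | nil => exact PX_nil.mp hz
    | cons a L' ih =>
      obtain ⟨c, y, hy, rfl⟩ := PX_cons.mp hz
      rw [ih (fun x hx => hL' x (List.mem_cons_of_mem _ hx)) y hy, hL' a List.mem_cons_self]
      group
  rw [hz1, mul_one] at h1
  rw [h1]
  exact hy

variable {C : Type u} {G : Type v} {J : Type w} [Group C] [Group G]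

/-- The group presented over `C` by the relators `R`. -/
abbrev Hq (C : Type u) [Group C] (J : Type w) (R : Set (Coprod C (FreeGroup J))) :=
  Coprod C (FreeGroup J) ⧸ Subgroup.normalClosure R

/-- The canonical homomorphism. -/
abbrev hq (R : Set (Coprod C (FreeGroup J))) : C →* Hq C J R :=
  (QuotientGroup.mk' (Subgroup.normalClosure R)).comp Coprod.inl

/-- Product-one relations in `(G * F_J)/⟨⟨f(R)⟩⟩` come from relations in `H_C * F_G`. -/
theorem stab_pull (f : C →* G) (R : Set (Coprod C (FreeGroup J))) (L : List G)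
    (hL : PX (L.map (hq (Coprod.map f (MonoidHom.id (FreeGroup J)) '' R))) 1) :
    ∃ L1 L2 : List (Coprod C (FreeGroup G)),
      L1.map (Coprod.lift f (FreeGroup.lift id) : Coprod C (FreeGroup G) →* G) = L ∧
      (∀ k ∈ L2, (Coprod.lift f (FreeGroup.lift id) : Coprod C (FreeGroup G) →* G) k = 1) ∧
      PX ((L1 ++ L2).map (Coprod.map (hq R) (MonoidHom.id (FreeGroup G)))) 1 := by
  set R' := Coprod.map f (MonoidHom.id (FreeGroup J)) '' R with hR'
  let φ : Coprod C (FreeGroup G) →* Coprod (Hq C J R) (FreeGroup G) :=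
    Coprod.map (hq R) (MonoidHom.id _)
  let π : Coprod C (FreeGroup G) →* G := Coprod.lift f (FreeGroup.lift id)
  have hπ : Function.Surjective π := fun g => ⟨Coprod.inr (FreeGroup.of g), by simp [π]⟩
  -- the homomorphism from the quotient over `C`
  have hker : Subgroup.normalClosure R ≤
      ((QuotientGroup.mk' (Subgroup.normalClosure R')).comp
        (Coprod.map f (MonoidHom.id (FreeGroup J)))).ker := by
    apply Subgroup.normalClosure_le_normal
    intro r hr
    rw [SetLike.mem_coe, MonoidHom.mem_ker, MonoidHom.comp_apply, ← MonoidHom.mem_ker,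
      QuotientGroup.ker_mk']
    exact Subgroup.subset_normalClosure ⟨r, hr, rfl⟩
  let θ : Hq C J R →* Hq G J R' := QuotientGroup.lift _ _ hker
  have hθ : ∀ x, θ (QuotientGroup.mk' (Subgroup.normalClosure R) x)
      = QuotientGroup.mk' (Subgroup.normalClosure R') (Coprod.map f (MonoidHom.id _) x) :=
    fun x => rfl
  let ρ : Coprod (Hq C J R) (FreeGroup G) →* Hq G J R' :=
    Coprod.lift θ (FreeGroup.lift fun g => hq R' g)
  have hρl : ∀ x, ρ (Coprod.inl x) = θ x := fun x => by simp [ρ]
  have hρr : ∀ g, ρ (Coprod.inr (FreeGroup.of g)) = hq R' g := fun g => by simp [ρ]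
  have hρφ : ∀ x, ρ (φ x) = hq R' (π x) := by
    intro x
    have : ρ.comp φ = (hq R').comp π := by
      refine Coprod.hom_ext (MonoidHom.ext fun c => ?_) (FreeGroup.ext_hom _ _ fun g => ?_)
      · change ρ (Coprod.inl (hq R c)) = hq R' (π (Coprod.inl c))
        rw [hρl]
        simp only [π, Coprod.lift_apply_inl]
        rfl
      · change ρ (Coprod.inr (FreeGroup.of g)) = hq R' (π (Coprod.inr (FreeGroup.of g)))
        rw [hρr]
        simp [π]
    exact DFunLike.congr_fun this x
  have hρs : Function.Surjective ρ := by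
    intro t
    obtain ⟨t, rfl⟩ := QuotientGroup.mk'_surjective _ t
    induction t using Coprod.induction_on with
    | inl g => exact ⟨Coprod.inr (FreeGroup.of g), hρr g⟩
    | inr y => exact ⟨Coprod.inl (QuotientGroup.mk' _ (Coprod.inr y)), by rw [hρl, hθ]; rfl⟩
    | mul x y hx hy =>
      obtain ⟨a, ha⟩ := hx
      obtain ⟨b, hb⟩ := hy
      exact ⟨a * b, by rw [map_mul, ha, hb, map_mul]⟩
  -- the kernel of `ρ`
  set N := Subgroup.normalClosure (φ '' (π.ker : Set (Coprod C (FreeGroup G)))) with hN
  have hρk : ∀ y, ρ y = 1 → y ∈ N := by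
    let F0 : Coprod C (FreeGroup G) →* Coprod (Hq C J R) (FreeGroup G) ⧸ N :=
      (QuotientGroup.mk' N).comp φ
    have hF0 : π.ker ≤ F0.ker := by
      intro k hk
      rw [MonoidHom.mem_ker, MonoidHom.comp_apply, ← MonoidHom.mem_ker, QuotientGroup.ker_mk']
      exact Subgroup.subset_normalClosure ⟨k, hk, rfl⟩
    let F : G →* Coprod (Hq C J R) (FreeGroup G) ⧸ N :=
      MonoidHom.liftOfRightInverse π (Function.surjInv hπ) (Function.rightInverse_surjInv hπ)
        ⟨F0, hF0⟩
    have hF : ∀ x, F (π x) = F0 x := fun x =>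
      MonoidHom.liftOfRightInverse_comp_apply π _ (Function.rightInverse_surjInv hπ) ⟨F0, hF0⟩ x
    let σ0 : Coprod G (FreeGroup J) →* Coprod (Hq C J R) (FreeGroup G) ⧸ N :=
      Coprod.lift F ((QuotientGroup.mk' N).comp
        ((Coprod.inl.comp (QuotientGroup.mk' (Subgroup.normalClosure R))).comp Coprod.inr))
    have hσm : ∀ x, σ0 (Coprod.map f (MonoidHom.id _) x)
        = QuotientGroup.mk' N (Coprod.inl (QuotientGroup.mk' (Subgroup.normalClosure R) x)) := by
      intro x
      have : σ0.comp (Coprod.map f (MonoidHom.id _)) = (QuotientGroup.mk' N).comp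
          (Coprod.inl.comp (QuotientGroup.mk' (Subgroup.normalClosure R))) := by
        refine Coprod.hom_ext (MonoidHom.ext fun c => ?_) (MonoidHom.ext fun y => ?_)
        · change σ0 (Coprod.inl (f c)) = _
          simp only [σ0, Coprod.lift_apply_inl]
          have : f c = π (Coprod.inl c) := by simp [π]
          rw [this, hF]
          rfl
        · change σ0 (Coprod.inr y) = _
          simp only [σ0, Coprod.lift_apply_inr]
          rfl
      exact DFunLike.congr_fun this x
    have hσk : Subgroup.normalClosure R' ≤ σ0.ker := by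
      apply Subgroup.normalClosure_le_normal
      rintro _ ⟨r, hr, rfl⟩
      rw [SetLike.mem_coe, MonoidHom.mem_ker, hσm]
      have : QuotientGroup.mk' (Subgroup.normalClosure R) r = 1 := by
        rw [← MonoidHom.mem_ker, QuotientGroup.ker_mk']
        exact Subgroup.subset_normalClosure hr
      rw [this, map_one, map_one]
    let σ : Hq G J R' →* Coprod (Hq C J R) (FreeGroup G) ⧸ N := QuotientGroup.lift _ σ0 hσk
    have hσ : ∀ x, σ (QuotientGroup.mk' (Subgroup.normalClosure R') x) = σ0 x := fun x => rfl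
    have hσρ : σ.comp ρ = QuotientGroup.mk' N := by
      refine Coprod.hom_ext ?_ (FreeGroup.ext_hom _ _ fun g => ?_)
      · refine MonoidHom.ext fun x => ?_
        obtain ⟨x, rfl⟩ := QuotientGroup.mk'_surjective _ x
        change σ (ρ (Coprod.inl (QuotientGroup.mk' _ x))) = QuotientGroup.mk' N (Coprod.inl _)
        rw [hρl, hθ, hσ, hσm]
      · change σ (ρ (Coprod.inr (FreeGroup.of g))) = QuotientGroup.mk' N (Coprod.inr _)
        rw [hρr]
        change σ (QuotientGroup.mk' _ (Coprod.inl g)) = _
        rw [hσ]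
        simp only [σ0, Coprod.lift_apply_inl]
        have : g = π (Coprod.inr (FreeGroup.of g)) := by simp [π]
        rw [this, hF]
        simp only [π, Coprod.lift_apply_inr, FreeGroup.lift_apply_of, id]
        rfl
    intro y hy
    have h1 : QuotientGroup.mk' N y = 1 := by
      rw [← hσρ, MonoidHom.comp_apply, hy, map_one]
    rw [← MonoidHom.mem_ker, QuotientGroup.ker_mk'] at h1
    exact h1
  -- conclusion
  obtain ⟨L1, e1⟩ : ∃ L1 : List (Coprod C (FreeGroup G)), L1.map π = L := by
    refine ⟨L.map fun g => Coprod.inr (FreeGroup.of g), ?_⟩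
    rw [List.map_map]
    conv_rhs => rw [← List.map_id L]
    congr 1
    funext g
    simp [π]
  have e2 : (L1.map φ).map ρ = L.map (hq R') := by
    conv_rhs => rw [← e1]
    rw [List.map_map, List.map_map]
    apply List.map_congr_left
    intro x _
    exact hρφ x
  rw [← e2] at hL
  obtain ⟨y, hy, hPy⟩ := PX_lift ρ hρs hL
  obtain ⟨l, hl, hly⟩ := exists_pc φ π.ker y (hρk y hy)
  have h2 := PX_of_pc φ (l.reverse.map (fun x => (x.1, x.2⁻¹)))
  rw [← pc_inv, hly] at h2
  refine ⟨L1, (l.reverse.map (fun x => (x.1, x.2⁻¹))).map Prod.snd, e1, ?_, ?_⟩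
  · intro x hx
    rw [List.map_map, List.mem_map] at hx
    obtain ⟨z, hz, rfl⟩ := hx
    exact π.ker.inv_mem (hl z (List.mem_reverse.mp hz))
  · rw [List.map_append]
    exact PX_append.mpr ⟨_, _, hPy, h2, by rw [mul_inv_cancel]⟩

/-- **Stability theorem**: if `C → (C * F_J)/⟨⟨R⟩⟩` reflects product-one relations, then for every
homomorphism `f : C → G` so does `G → (G * F_J)/⟨⟨f(R)⟩⟩`. -/
theorem Cons.stab (f : C →* G) (R : Set (Coprod C (FreeGroup J))) (h : Cons (hq R)) :
    Cons (hq (Coprod.map f (MonoidHom.id (FreeGroup J)) '' R)) := by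
  intro L hL
  obtain ⟨L1, L2, e1, e2, h3⟩ := stab_pull f R L hL
  have h4 := PX_map (Coprod.lift f (FreeGroup.lift id) : Coprod C (FreeGroup G) →* G)
    (Cons.free (X := G) (hq R) h _ h3)
  rw [List.map_append, e1, map_one] at h4
  refine PX_drop_ones h4 ?_
  intro x hx
  obtain ⟨z, hz, rfl⟩ := List.mem_map.mp hx
  exact e2 z hz

end Stab

end Pool.Agent.H76.Planar
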