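import Pool.Agent.H76.Planar.Rules

/-! Surgery lemmas for the predicate `M`. -/

set_option autoImplicit false

namespace Pool.Agent.H76.Planar

open Pool.Agent.H76.Ker

universe u v

variable {B : Type u} {X : Type v} [Group B]


/-- The multiset of cyclic words attached to words in `B`. -/
abbrev bm (X : Type v) (L : List (List B)) : Multiset (Cycle (Lt B X)) :=
  ((L.map fun u => cy (bw X u) : List (Cycle (Lt B X))) : Multiset (Cycle (Lt B X)))

/-- Variant of `merge` for the second word. -/
theorem M.merge' (y : X × Bool) (v v' : List (Lt B X)) (l : Multiset (Cycle (Lt B X)))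
    (h : M (cy (v ++ v') ::ₘ l)) : M (cy (Sum.inr y :: v') ::ₘ cy (Sum.inr (bar y) :: v) ::ₘ l) := by
  apply M.merge
  rw [cy_rot v' v]
  exact h

theorem sum_aux (b : List (Lt B X)) (l' : Multiset (Cycle (Lt B X)))
    (hb : ∀ (u : List B) (L : List (List B)), PX ((u :: L).map List.prod) 1 →
      M (cy (bw X u ++ b) ::ₘ (bm X L + l'))) :
    ∀ S : Multiset (Cycle (Lt B X)), M S → ∀ (a : List (Lt B X)) (l : Multiset (Cycle (Lt B X))),
      S = cy a ::ₘ l → M (cy (a ++ b) ::ₘ (l + l')) := by
  intro S hS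
  induction hS with
  | base L h =>
    intro a l he
    obtain ⟨a', L', rfl, rfl, hp⟩ := base_cases h he
    exact hb a' L' hp
  | merge y v v' l0 h ih =>
    intro a l he
    rcases cons_cases he with ⟨h1, rfl⟩ | ⟨t, h1, rfl⟩
    · obtain ⟨a1, a2, rfl, rfl⟩ := cy_cons h1
      have h2 := ih (a1 ++ v' ++ a2) l0
        (congrArg (· ::ₘ l0) (cy_eq a2 (a1 ++ v') (by simp) (by simp)))
      have e1 : cy (a1 ++ Sum.inr y :: a2 ++ b) = cy (Sum.inr y :: (a2 ++ b ++ a1)) :=
        cy_eq a1 (Sum.inr y :: (a2 ++ b)) (by simp) (by simp)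
      have e2 : cy ((a2 ++ b ++ a1) ++ v') = cy (a1 ++ v' ++ a2 ++ b) :=
        cy_eq (a2 ++ b) (a1 ++ v') (by simp) (by simp)
      rw [Multiset.cons_add, e1]
      apply M.merge
      rw [e2]
      exact h2
    · rcases cons_cases h1 with ⟨h1', rfl⟩ | ⟨t', rfl, rfl⟩
      · obtain ⟨a1, a2, rfl, rfl⟩ := cy_cons h1'
        have h2 := ih (a1 ++ v ++ a2) l0
          (congrArg (· ::ₘ l0) (cy_eq (v ++ a2) a1 (by simp) (by simp)))
        have e1 : cy (a1 ++ Sum.inr (bar y) :: a2 ++ b)
            = cy (Sum.inr (bar y) :: (a2 ++ b ++ a1)) :=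
          cy_eq a1 (Sum.inr (bar y) :: (a2 ++ b)) (by simp) (by simp)
        have e2 : cy (v ++ (a2 ++ b ++ a1)) = cy (a1 ++ v ++ a2 ++ b) :=
          cy_eq (v ++ a2 ++ b) a1 (by simp) (by simp)
        rw [Multiset.cons_add, e1, Multiset.cons_swap]
        apply M.merge
        rw [e2]
        exact h2
      · have h2 := ih a (cy (v ++ v') ::ₘ t') (Multiset.cons_swap _ _ _)
        rw [Multiset.cons_add, Multiset.cons_add, Multiset.cons_swap,
          Multiset.cons_swap (cy (a ++ b))]
        apply M.merge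
        rw [Multiset.cons_swap]
        rwa [Multiset.cons_add] at h2
  | split y v v' l1 l2 h h' ih ih' =>
    intro a l he
    rcases cons_cases he with ⟨h1, rfl⟩ | ⟨t, h1, rfl⟩
    · obtain ⟨a1, a2, rfl, h3⟩ := cy_cons h1
      rcases app_mid h3 with ⟨m, rfl, rfl⟩ | ⟨m, rfl, rfl⟩
      · have h2 := ih' (a1 ++ m) l2 (by rw [cy_rot])
        rw [cy_eq a1 (Sum.inr y :: (v ++ Sum.inr (bar y) :: (m ++ b))) (by simp) rfl, add_assoc]
        have : Sum.inr y :: (v ++ Sum.inr (bar y) :: (m ++ b)) ++ a1
          = Sum.inr y :: (v ++ Sum.inr (bar y) :: (m ++ b ++ a1)) := by simp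
        rw [this]
        apply M.split _ _ _ _ _ h
        rw [cy_eq (m ++ b) a1 rfl rfl]
        simpa using h2
      · have h2 := ih (m ++ a2) l1 (by rw [cy_rot])
        rw [cy_eq (m ++ Sum.inr (bar y) :: v') (Sum.inr y :: (a2 ++ b)) (by simp) rfl,
          add_assoc, add_comm l2 l', ← add_assoc]
        have : Sum.inr y :: (a2 ++ b) ++ (m ++ Sum.inr (bar y) :: v')
          = Sum.inr y :: (a2 ++ b ++ m ++ Sum.inr (bar y) :: v') := by simp
        rw [this]
        refine M.split _ _ _ _ _ ?_ h'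
        rw [cy_eq (a2 ++ b) m rfl rfl]
        simpa using h2
    · rcases add_cases h1 with ⟨s', rfl, rfl⟩ | ⟨t', rfl, rfl⟩
      · have h2 := ih a (cy v ::ₘ s') (Multiset.cons_swap _ _ _)
        rw [Multiset.cons_add, Multiset.cons_swap]
        rw [show cy (a ++ b) ::ₘ (s' + l2 + l') = (cy (a ++ b) ::ₘ (s' + l')) + l2 by
          rw [Multiset.cons_add, add_assoc, add_assoc, add_comm l2 l']]
        refine M.split _ _ _ _ _ ?_ h'
        rw [Multiset.cons_swap]
        rwa [Multiset.cons_add] at h2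
      · have h2 := ih' a (cy v' ::ₘ t') (Multiset.cons_swap _ _ _)
        rw [Multiset.cons_add, Multiset.cons_swap]
        rw [show cy (a ++ b) ::ₘ (l1 + t' + l') = l1 + (cy (a ++ b) ::ₘ (t' + l')) by
          rw [Multiset.add_cons, add_assoc]]
        refine M.split _ _ _ _ _ h ?_
        rw [Multiset.cons_swap]
        rwa [Multiset.cons_add] at h2

/-- Boundary sum. -/
theorem M.sum {a b : List (Lt B X)} {l l' : Multiset (Cycle (Lt B X))} (h : M (cy a ::ₘ l))
    (h' : M (cy b ::ₘ l')) : M (cy (a ++ b) ::ₘ (l + l')) := by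
  refine sum_aux b l' (fun u L hu => ?_) _ h a l rfl
  have h1 := sum_aux (bw X u) (bm X L) (fun u' L' hu' => ?_) _ h' b l' rfl
  · rw [add_comm, cy_rot]
    exact h1
  · have h2 : PX (((u' ++ u) :: (L' ++ L)).map List.prod) 1 := by
      rw [List.map_cons] at hu hu' ⊢
      obtain ⟨c, y, hy, h3⟩ := PX_cons.mp hu
      obtain ⟨c', y', hy', h3'⟩ := PX_cons.mp hu'
      have h4 : u.prod = (c⁻¹ * y * c)⁻¹ := by
        have : y = (c * u.prod * c⁻¹)⁻¹ := eq_inv_of_mul_eq_one_right h3.symm
        rw [this]; group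
      have h4' : u'.prod = (c'⁻¹ * y' * c')⁻¹ := by
        have : y' = (c' * u'.prod * c'⁻¹)⁻¹ := eq_inv_of_mul_eq_one_right h3'.symm
        rw [this]; group
      have hy1 : PX (L.map List.prod) (c⁻¹ * y * c) := by
        have := PX_conj hy c⁻¹
        rwa [inv_inv] at this
      have hy1' : PX (L'.map List.prod) (c'⁻¹ * y' * c') := by
        have := PX_conj hy' c'⁻¹
        rwa [inv_inv] at this
      have h5 : PX ((L ++ L').map List.prod) ((c⁻¹ * y * c) * (c'⁻¹ * y' * c')) := by
        rw [List.map_append]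
        exact PX_append.mpr ⟨_, _, hy1, hy1', rfl⟩
      have h6 : PX ((L' ++ L).map List.prod) ((c⁻¹ * y * c) * (c'⁻¹ * y' * c')) :=
        PX_perm (List.Perm.map _ List.perm_append_comm) h5
      refine PX_cons.mpr ⟨1, _, h6, ?_⟩
      rw [List.prod_append, h4, h4']
      group
    have h3 := M.base (X := X) _ h2
    have h4 : (((((u' ++ u) :: (L' ++ L)).map fun u => cy (bw X u) : List (Cycle (Lt B X))) :
        Multiset (Cycle (Lt B X)))) = cy (bw X u' ++ bw X u) ::ₘ (bm X L' + bm X L) := by
      rw [List.map_cons, ← Multiset.cons_coe, List.map_append, ← Multiset.coe_add, bw, bw, bw,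
        ← List.map_append]
    rw [h4] at h3
    exact h3

/-- Cutting a boundary word in two. -/
theorem cut_aux : ∀ S : Multiset (Cycle (Lt B X)), M S → ∀ (a b : List (Lt B X))
    (l : Multiset (Cycle (Lt B X))), S = cy (a ++ b) ::ₘ l → M (cy a ::ₘ cy b ::ₘ l) := by
  intro S hS
  induction hS with
  | base L h =>
    intro a b l he
    obtain ⟨a', L', h1, rfl, hp⟩ := base_cases h he
    obtain ⟨a1, a2, rfl, rfl, rfl⟩ := List.append_eq_map_iff.mp h1
    have h2 : PX ((a1 :: a2 :: L').map List.prod) 1 := by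
      rw [List.map_cons] at hp
      obtain ⟨c, y, hy, h3⟩ := PX_cons.mp hp
      rw [List.map_cons, List.map_cons]
      refine PX_cons.mpr ⟨c, _, PX_cons.mpr ⟨c, y, hy, rfl⟩, ?_⟩
      rw [h3, List.prod_append]
      group
    exact M.base (X := X) _ h2
  | merge y v v' l0 h ih =>
    intro a b l he
    rcases cons_cases he with ⟨h1, rfl⟩ | ⟨t, h1, rfl⟩
    · have key : ∀ a b : List (Lt B X), (∃ a1 a2, a = a1 ++ Sum.inr y :: a2 ∧ v = a2 ++ b ++ a1) →
          M (cy a ::ₘ cy b ::ₘ cy (Sum.inr (bar y) :: v') ::ₘ l0) := by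
        rintro a b ⟨a1, a2, rfl, rfl⟩
        have h2 := ih b (a1 ++ v' ++ a2) l0
          (congrArg (· ::ₘ l0) (cy_eq a2 (b ++ a1 ++ v') (by simp) (by simp)))
        have e1 : cy (a1 ++ Sum.inr y :: a2) = cy (Sum.inr y :: (a2 ++ a1)) :=
          cy_eq a1 (Sum.inr y :: a2) (by simp) (by simp)
        have e2 : cy ((a2 ++ a1) ++ v') = cy (a1 ++ v' ++ a2) :=
          cy_eq a2 (a1 ++ v') (by simp) (by simp)
        rw [e1, Multiset.cons_swap (cy b)]
        apply M.merge
        rw [e2, Multiset.cons_swap]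
        exact h2
      rcases cy_cons_app h1 with h2 | h2
      · exact key a b h2
      · rw [Multiset.cons_swap]
        exact key b a h2
    · rcases cons_cases h1 with ⟨h1', rfl⟩ | ⟨t', rfl, rfl⟩
      · have key : ∀ a b : List (Lt B X),
            (∃ a1 a2, a = a1 ++ Sum.inr (bar y) :: a2 ∧ v' = a2 ++ b ++ a1) →
            M (cy a ::ₘ cy b ::ₘ cy (Sum.inr y :: v) ::ₘ l0) := by
          rintro a b ⟨a1, a2, rfl, rfl⟩
          have h2 := ih b (a1 ++ v ++ a2) l0
            (congrArg (· ::ₘ l0) (cy_eq (v ++ a2) (b ++ a1) (by simp) (by simp)))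
          have e1 : cy (a1 ++ Sum.inr (bar y) :: a2) = cy (Sum.inr (bar y) :: (a2 ++ a1)) :=
            cy_eq a1 (Sum.inr (bar y) :: a2) (by simp) (by simp)
          have e2 : cy (v ++ (a2 ++ a1)) = cy (a1 ++ v ++ a2) :=
            cy_eq (v ++ a2) a1 (by simp) (by simp)
          rw [e1, Multiset.cons_swap (cy b), Multiset.cons_swap]
          apply M.merge
          rw [e2, Multiset.cons_swap]
          exact h2
        rcases cy_cons_app h1' with h2 | h2
        · exact key a b h2
        · rw [Multiset.cons_swap]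
          exact key b a h2
      · have h2 := ih a b (cy (v ++ v') ::ₘ t') (Multiset.cons_swap _ _ _)
        rw [Multiset.cons_swap (cy b), Multiset.cons_swap (cy a), Multiset.cons_swap (cy b),
          Multiset.cons_swap (cy a)]
        apply M.merge
        rw [Multiset.cons_swap _ (cy a), Multiset.cons_swap _ (cy b)]
        exact h2
  | split y v v' l1 l2 h h' ih ih' =>
    intro a b l he
    rcases cons_cases he with ⟨h1, rfl⟩ | ⟨t, h1, rfl⟩
    · have key : ∀ a b : List (Lt B X), (∃ a1 a2, a = a1 ++ Sum.inr y :: a2 ∧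
          v ++ Sum.inr (bar y) :: v' = a2 ++ b ++ a1) → M (cy a ::ₘ cy b ::ₘ (l1 + l2)) := by
        rintro a b ⟨a1, a2, rfl, h3⟩
        rw [List.append_assoc] at h3
        rcases app_mid h3 with ⟨m, rfl, rfl⟩ | ⟨m, h4, rfl⟩
        · -- the inverse letter lies in `a2`
          have h5 := ih' b (a1 ++ m) l2
            (congrArg (· ::ₘ l2) (cy_eq m (b ++ a1) (by simp) (by simp)))
          rw [Multiset.cons_swap, cy_eq a1 (Sum.inr y :: (v ++ Sum.inr (bar y) :: m)) rfl rfl,
            Multiset.cons_swap]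
          have : Sum.inr y :: (v ++ Sum.inr (bar y) :: m) ++ a1
            = Sum.inr y :: (v ++ Sum.inr (bar y) :: (m ++ a1)) := by simp
          rw [this, ← Multiset.add_cons]
          apply M.split _ _ _ _ _ h
          rw [Multiset.cons_swap, cy_rot m a1]
          exact h5
        · rcases app_mid h4.symm with ⟨m', rfl, rfl⟩ | ⟨m', rfl, rfl⟩
          · -- the inverse letter lies in `b`
            have h5 := (M.sum (a := m ++ a2) (b := a1 ++ m') (l := l1) (l' := l2)
              (by rw [cy_rot]; exact h) (by rw [cy_rot]; exact h'))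
            rw [cy_eq a1 (Sum.inr y :: a2) rfl rfl, cy_eq m (Sum.inr (bar y) :: m') rfl rfl]
            rw [List.cons_append, List.cons_append]
            apply M.merge
            rw [cy_eq a2 (a1 ++ m' ++ m) (by simp) rfl]
            rw [cy_eq m (a2 ++ a1 ++ m') (by simp) rfl] at h5
            rw [cy_eq (a1 ++ m' ++ m) a2 rfl rfl]
            simpa using h5
          · -- the inverse letter lies in `a1`
            have h5 := ih b (m' ++ a2) l1
              (congrArg (· ::ₘ l1) (cy_eq a2 (b ++ m') (by simp) (by simp)))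
            rw [cy_eq (m' ++ Sum.inr (bar y) :: v') (Sum.inr y :: a2) rfl rfl]
            have : Sum.inr y :: a2 ++ (m' ++ Sum.inr (bar y) :: v')
              = Sum.inr y :: ((a2 ++ m') ++ Sum.inr (bar y) :: v') := by simp
            rw [this, ← Multiset.cons_add]
            refine M.split _ _ _ _ _ ?_ h'
            rw [Multiset.cons_swap, cy_rot a2 m']
            exact h5
      rcases cy_cons_app h1 with h2 | h2
      · exact key a b h2
      · rw [Multiset.cons_swap]
        exact key b a h2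
    · rcases add_cases h1 with ⟨s', rfl, rfl⟩ | ⟨t', rfl, rfl⟩
      · have h2 := ih a b (cy v ::ₘ s') (Multiset.cons_swap _ _ _)
        rw [Multiset.cons_swap (cy b), Multiset.cons_swap (cy a),
          ← Multiset.cons_add, ← Multiset.cons_add]
        refine M.split _ _ _ _ _ ?_ h'
        rw [Multiset.cons_swap _ (cy a), Multiset.cons_swap _ (cy b)]
        exact h2
      · have h2 := ih' a b (cy v' ::ₘ t') (Multiset.cons_swap _ _ _)
        rw [Multiset.cons_swap (cy b), Multiset.cons_swap (cy a),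
          ← Multiset.add_cons, ← Multiset.add_cons]
        refine M.split _ _ _ _ _ h ?_
        rw [Multiset.cons_swap _ (cy a), Multiset.cons_swap _ (cy b)]
        exact h2

theorem M.cut {a b : List (Lt B X)} {l : Multiset (Cycle (Lt B X))}
    (h : M (cy (a ++ b) ::ₘ l)) : M (cy a ::ₘ cy b ::ₘ l) := cut_aux _ h a b l rfl

end Pool.Agent.H76.Planar
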