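import Pool.Agent.H76.Planar.Apply
import Pool.Agent.H26.Positive

/-! Towers of systems. -/

set_option autoImplicit false

namespace Pool.Agent.H76.Planar

open Pool.Agent.H76.Ker Monoid
open scoped commutatorElement

universe u v w

section Levin

theorem Cons_of_reflecting {G : Type u} {W : Type v} [Group G] [Group W] {δ : G →* W}
    (h : Pool.Agent.H26.Kervaire.Reflecting δ) : Cons δ := by
  intro L hL
  obtain ⟨l, hl, hl1⟩ := hL
  have hlen : l.length = L.length := by
    have := congrArg List.length hl
    simpa using this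
  have h1 : ∀ i : Fin L.length, (l.get (i.cast hlen.symm)).2 = δ (L.get i) := by
    intro i
    have h4 : (l.map Prod.snd)[(i : ℕ)]'(by simp [hlen]) = (L.map δ)[(i : ℕ)]'(by simp) := by
      simp only [hl]
    rw [List.getElem_map, List.getElem_map] at h4
    exact h4
  have h2 : List.ofFn (fun i : Fin L.length => ((l.get (i.cast hlen.symm)).1, δ (L.get i))) = l := by
    apply List.ext_getElem
    · simp [hlen]
    · intro k hk hk'
      rw [List.getElem_ofFn]
      have hkL : k < L.length := by simpa using hk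
      have := h1 ⟨k, hkL⟩
      exact Prod.ext rfl this.symm
  obtain ⟨x, hx⟩ := h L.length (fun i => L.get i) ⟨fun i => (l.get (i.cast hlen.symm)).1, by
    rw [← hl1]
    conv_rhs => rw [← h2]
    rw [pc_ofFn]
    rfl⟩
  refine ⟨List.ofFn (fun i => (x i, L.get i)), ?_, ?_⟩
  · rw [List.map_ofFn]
    exact List.ofFn_get L
  · rw [pc_ofFn]
    exact hx

theorem Cons_of_solution {K : Type u} {W : Type v} {J : Type w} [Group K] [Group W] (δ : K →* W)
    (hδ : Cons δ) (τ : J → W) (R : Set (Coprod K (FreeGroup J)))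
    (hR : ∀ r ∈ R, Coprod.lift δ (FreeGroup.lift τ) r = 1) : Cons (hq R) := by
  have hker : Subgroup.normalClosure R ≤ (Coprod.lift δ (FreeGroup.lift τ)).ker :=
    Subgroup.normalClosure_le_normal hR
  have h1 : (QuotientGroup.lift _ _ hker : Hq K J R →* W).comp (hq R) = δ := by
    refine MonoidHom.ext fun k => ?_
    change Coprod.lift δ (FreeGroup.lift τ) (Coprod.inl k) = δ k
    rw [Coprod.lift_apply_inl]
  have h2 : Cons ((QuotientGroup.lift _ _ hker : Hq K J R →* W).comp (hq R)) := by
    rw [h1]
    exact hδ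
  exact h2.of_comp

/-- Positive words. -/
theorem levin_cons {K : Type u} [Group K] {J : Type w} (i : J) (L : List K) (hL : L ≠ [])
    (ε : ℤˣ) (R : Set (Coprod K (FreeGroup J)))
    (hR : ∀ r ∈ R, r = (L.map fun c => Coprod.inl c *
      (Coprod.inr (FreeGroup.of i) : Coprod K (FreeGroup J)) ^ (ε : ℤ)).prod) :
    Cons (hq R) := by
  obtain ⟨t, ht⟩ := Pool.Agent.H26.Kervaire.levin L hL
  refine Cons_of_solution (Pool.Agent.H26.Kervaire.diag K (Multiplicative (ZMod L.length)))
    (Cons_of_reflecting Pool.Agent.H26.Kervaire.diag_reflecting)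
    (fun _ => t ^ (ε : ℤ)) R ?_
  intro r hr
  rw [hR r hr, map_list_prod, List.map_map, ← ht]
  congr 1
  apply List.map_congr_left
  intro c _
  have hε : (t ^ (ε : ℤ)) ^ (ε : ℤ) = t := by
    rcases Int.units_eq_one_or ε with h | h <;> simp [h]
  simp [hε]

end Levin

section Tower

variable {G : Type u} [Group G] {n : ℕ}

/-- The subgroup generated by `G` and the variables with index in `S`. -/
def lsub (G : Type u) [Group G] (n : ℕ) (S : Set (Fin n)) : Subgroup (WG G n) :=
  Subgroup.closure (Set.range (fun g : G => (Coprod.inl g : WG G n)) ∪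
    (fun k : Fin n => (Coprod.inr (FreeGroup.of k) : WG G n)) '' S)

/-- The normal closure of the equations of level below `b`. -/
def Nb (w : Fin n → WG G n) (β : Fin n → ℕ) (b : ℕ) : Subgroup (WG G n) :=
  Subgroup.normalClosure {z | ∃ j, β j < b ∧ z = w j}

instance (w : Fin n → WG G n) (β : Fin n → ℕ) (b : ℕ) : (Nb w β b).Normal :=
  Subgroup.normalClosure_normal

theorem lsub_mono {S T : Set (Fin n)} (h : S ⊆ T) : lsub G n S ≤ lsub G n T :=
  Subgroup.closure_mono (Set.union_subset_union le_rfl (Set.image_mono h))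

section Step

variable (w : Fin n → WG G n) (β : Fin n → ℕ) (b : ℕ) (c d : Fin n → WG G n)

open Classical in
/-- The substitution `t_k = c_k⁻¹ x_k d_k⁻¹` for the variables of level `b`. -/
noncomputable def Pih : WG G n →* Coprod (WG G n ⧸ Nb w β b) (FreeGroup {i : Fin n // β i = b}) :=
  Coprod.lift (Coprod.inl.comp ((QuotientGroup.mk' (Nb w β b)).comp Coprod.inl))
    (FreeGroup.lift fun k => if h : β k = b then
      (Coprod.inl (QuotientGroup.mk' (Nb w β b) (c k)))⁻¹ *
        Coprod.inr (FreeGroup.of (⟨k, h⟩ : {i : Fin n // β i = b})) *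
        (Coprod.inl (QuotientGroup.mk' (Nb w β b) (d k)))⁻¹
      else Coprod.inl (QuotientGroup.mk' (Nb w β b) (Coprod.inr (FreeGroup.of k))))

theorem Pih_inl (g : G) : Pih w β b c d (Coprod.inl g)
    = Coprod.inl (QuotientGroup.mk' (Nb w β b) (Coprod.inl g)) := by
  simp [Pih]

theorem Pih_var {k : Fin n} (h : β k = b) : Pih w β b c d (Coprod.inr (FreeGroup.of k))
    = (Coprod.inl (QuotientGroup.mk' (Nb w β b) (c k)))⁻¹ *
        Coprod.inr (FreeGroup.of (⟨k, h⟩ : {i : Fin n // β i = b})) *
        (Coprod.inl (QuotientGroup.mk' (Nb w β b) (d k)))⁻¹ := by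
  rw [Pih, Coprod.lift_apply_inr, FreeGroup.lift_apply_of, dif_pos h]

theorem Pih_other {k : Fin n} (h : β k ≠ b) : Pih w β b c d (Coprod.inr (FreeGroup.of k))
    = Coprod.inl (QuotientGroup.mk' (Nb w β b) (Coprod.inr (FreeGroup.of k))) := by
  rw [Pih, Coprod.lift_apply_inr, FreeGroup.lift_apply_of, dif_neg h]

theorem Pih_low {S : Set (Fin n)} (hS : ∀ k ∈ S, β k ≠ b) {z : WG G n} (hz : z ∈ lsub G n S) :
    Pih w β b c d z = Coprod.inl (QuotientGroup.mk' (Nb w β b) z) := by
  unfold lsub at hz
  induction hz using Subgroup.closure_induction with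
  | mem x hx =>
    rcases hx with ⟨g, rfl⟩ | ⟨k, hk, rfl⟩
    · exact Pih_inl w β b c d g
    · exact Pih_other w β b c d (hS k hk)
  | one => rw [map_one, map_one, map_one]
  | mul x y _ _ hx hy => rw [map_mul, hx, hy, map_mul, map_mul]
  | inv x _ hx => rw [map_inv, hx, map_inv, map_inv]

theorem Pih_twist {k : Fin n} (h : β k = b) {S : Set (Fin n)} (hS : ∀ k ∈ S, β k ≠ b)
    (hc : c k ∈ lsub G n S) (hd : d k ∈ lsub G n S) :
    Pih w β b c d (c k * Coprod.inr (FreeGroup.of k) * d k)
      = Coprod.inr (FreeGroup.of (⟨k, h⟩ : {i : Fin n // β i = b})) := by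
  rw [map_mul, map_mul, Pih_low w β b c d hS hc, Pih_low w β b c d hS hd, Pih_var w β b c d h]
  group

/-- One step of the tower. -/
theorem tower_step (u : Fin n → WG G n)
    (hlow : ∀ j, β j < b → u j * w j * (u j)⁻¹ ∈ lsub G n {k | β k < b})
    (hb : Cons ((QuotientGroup.mk' (Nb w β b)).comp Coprod.inl : G →* _))
    (R : Set (Coprod (WG G n ⧸ Nb w β b) (FreeGroup {i : Fin n // β i = b})))
    (hR : Cons (hq R)) (hw : ∀ j, β j = b → Pih w β b c d (u j * w j * (u j)⁻¹) ∈ R) :
    Cons ((QuotientGroup.mk' (Nb w β (b + 1))).comp Coprod.inl : G →* _) := by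
  have hne : ∀ k ∈ {k : Fin n | β k < b}, β k ≠ b := fun k hk => ne_of_lt hk
  have hconj : ∀ j, Pih w β b c d (u j * w j * (u j)⁻¹) ∈ Subgroup.normalClosure R →
      Pih w β b c d (w j) ∈ Subgroup.normalClosure R := by
    intro j hj
    rw [map_mul, map_mul, map_inv] at hj
    have := (Subgroup.normalClosure_normal (s := R)).conj_mem _ hj (Pih w β b c d (u j))⁻¹
    simpa [mul_assoc] using this
  have hker : Nb w β (b + 1) ≤
      ((QuotientGroup.mk' (Subgroup.normalClosure R)).comp (Pih w β b c d)).ker := by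
    apply Subgroup.normalClosure_le_normal
    rintro _ ⟨j, hj, rfl⟩
    rw [SetLike.mem_coe, MonoidHom.mem_ker, MonoidHom.comp_apply, ← MonoidHom.mem_ker,
      QuotientGroup.ker_mk']
    apply hconj
    rcases Nat.lt_succ_iff_lt_or_eq.mp hj with hj | hj
    · have h1 := Pih_low w β b c d hne (hlow j hj)
      have h2 : QuotientGroup.mk' (Nb w β b) (u j * w j * (u j)⁻¹) = 1 := by
        rw [← MonoidHom.mem_ker, QuotientGroup.ker_mk']
        exact (inferInstance : (Nb w β b).Normal).conj_mem _
          (Subgroup.subset_normalClosure ⟨j, hj, rfl⟩) _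
      rw [h1, h2, map_one]
      exact Subgroup.one_mem _
    · exact Subgroup.subset_normalClosure (hw j hj)
  have h1 : (QuotientGroup.lift _ _ hker : _ →* Hq _ _ R).comp
      ((QuotientGroup.mk' (Nb w β (b + 1))).comp Coprod.inl : G →* _)
      = (hq R).comp ((QuotientGroup.mk' (Nb w β b)).comp Coprod.inl) := by
    refine MonoidHom.ext fun g => ?_
    change QuotientGroup.mk' _ (Pih w β b c d (Coprod.inl g)) = _
    rw [Pih_inl]
    rfl
  have h2 := Cons.comp hb hR
  rw [← h1] at h2
  exact h2.of_comp

theorem expJ_Pih (i : {i : Fin n // β i = b}) (z : WG G n) :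
    expJ (WG G n ⧸ Nb w β b) i (Pih w β b c d z) = expJ G (i : Fin n) z := by
  have : (expJ (WG G n ⧸ Nb w β b) i).comp (Pih w β b c d) = expJ G (i : Fin n) := by
    refine Coprod.hom_ext (MonoidHom.ext fun c => ?_) (FreeGroup.ext_hom _ _ fun k => ?_)
    · simp [Pih_inl]
    · simp only [MonoidHom.comp_apply]
      by_cases h : β k = b
      · rw [Pih_var w β b c d h]
        simp only [map_mul, map_inv, expJ_inl, expJ_inr, inv_one, one_mul, mul_one]
        have : (⟨k, h⟩ : {i : Fin n // β i = b}) = i ↔ k = (i : Fin n) := by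
          rw [Subtype.ext_iff]
        simp only [this]
      · rw [Pih_other w β b c d h, expJ_inl, expJ_inr, if_neg]
        rintro rfl
        exact h i.2
  exact DFunLike.congr_fun this z

end Step

theorem expJ_lsub {S : Set (Fin n)} {i : Fin n} (hi : i ∉ S) {z : WG G n}
    (hz : z ∈ lsub G n S) : expJ G i z = 1 := by
  unfold lsub at hz
  induction hz using Subgroup.closure_induction with
  | mem x hx =>
    rcases hx with ⟨a, rfl⟩ | ⟨k, hk, rfl⟩
    · exact expJ_inl i a
    · change expJ G i (Coprod.inr (FreeGroup.of k)) = 1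
      rw [expJ_inr, if_neg]
      rintro rfl
      exact hi hk
  | one => exact map_one _
  | mul x y _ _ hx hy => rw [map_mul, hx, hy, mul_one]
  | inv x _ hx => rw [map_inv, hx, inv_one]

/-- **Tower theorem.** -/
theorem tower (w : Fin n → WG G n)
    (hdet : (Matrix.of fun i j => Multiplicative.toAdd (expJ G i (w j))).det ≠ 0)
    (β : Fin n → ℕ) (A : ℕ → Subgroup (WG G n))
    (hA1 : ∀ b, A b ≤ lsub G n {k | β k < b})
    (hA2 : ∀ b, ∀ x ∈ A b, ∀ y ∈ A b, ∀ z ∈ A b, ⁅⁅x, y⁆, z⁆ ∈ Nb w β b)
    (c d : Fin n → WG G n)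
    (hc : ∀ i, c i ∈ lsub G n {k | β k < β i}) (hd : ∀ i, d i ∈ lsub G n {k | β k < β i})
    (u : Fin n → WG G n)
    (hw : ∀ j, u j * w j * (u j)⁻¹ ∈ Subgroup.closure ((A (β j) : Set (WG G n)) ∪
        {z | ∃ i, β i = β j ∧ z = c i * Coprod.inr (FreeGroup.of i) * d i}) ∨
      ((∀ i, β i = β j → i = j) ∧ ∃ (ε : ℤˣ) (L : List (WG G n)), L ≠ [] ∧
        (∀ a ∈ L, a ∈ lsub G n {k | β k < β j}) ∧
        u j * w j * (u j)⁻¹
          = (L.map fun a => a * (Coprod.inr (FreeGroup.of j) : WG G n) ^ (ε : ℤ)).prod)) :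
    Cons ((QuotientGroup.mk' (Subgroup.normalClosure (Set.range w))).comp Coprod.inl : G →* _) := by
  classical
  have hwsub : ∀ j, u j * w j * (u j)⁻¹ ∈ lsub G n {i | β i < β j + 1} := by
    intro j
    have hm : lsub G n {i | β i < β j} ≤ lsub G n {i | β i < β j + 1} :=
      lsub_mono (fun i (hi : β i < β j) => Nat.lt_succ_of_lt hi)
    rcases hw j with h | ⟨_, ε, L, _, hL, h⟩
    · refine (Subgroup.closure_le _).mpr ?_ h
      rintro z (hz | ⟨i, hi, rfl⟩)
      · exact hm (hA1 _ hz)
      · refine Subgroup.mul_mem _ (Subgroup.mul_mem _ (hm (hi ▸ hc i)) ?_) (hm (hi ▸ hd i))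
        exact Subgroup.subset_closure (Or.inr ⟨i, hi ▸ Nat.lt_succ_self _, rfl⟩)
    · rw [h]
      apply Subgroup.list_prod_mem
      intro x hx
      rw [List.mem_map] at hx
      obtain ⟨a, ha, rfl⟩ := hx
      refine Subgroup.mul_mem _ (hm (hL a ha)) (Subgroup.zpow_mem _ ?_ _)
      exact Subgroup.subset_closure (Or.inr ⟨j, Nat.lt_succ_self _, rfl⟩)
  let E : Matrix (Fin n) (Fin n) ℤ :=
    Matrix.of (fun i j : Fin n => Multiplicative.toAdd (expJ G i (w j)))
  have hE : E.det ≠ 0 := hdet
  have hexpo : ∀ i j, expJ G i (u j * w j * (u j)⁻¹) = expJ G i (w j) := by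
    intro i j
    simp only [map_mul, map_inv, mul_inv_cancel_comm]
  have htri : E.BlockTriangular β := by
    intro i j hij
    have h1 : i ∉ {k | β k < β j + 1} := by
      intro h
      have : β i < β j + 1 := h
      omega
    have h2 := expJ_lsub h1 (hwsub j)
    rw [hexpo] at h2
    change Multiplicative.toAdd (expJ G i (w j)) = 0
    rw [h2, toAdd_one]
  have hblock : ∀ b, (Matrix.of (fun i j : {i : Fin n // β i = b} =>
      Multiplicative.toAdd (expJ G (i : Fin n) (w j)))).det ≠ 0 := by
    intro b
    by_cases hb : b ∈ Finset.univ.image β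
    · rw [htri.det] at hE
      exact Finset.prod_ne_zero_iff.mp hE b hb
    · have : IsEmpty {i : Fin n // β i = b} := by
        constructor
        rintro ⟨i, hi⟩
        exact hb (Finset.mem_image.mpr ⟨i, Finset.mem_univ _, hi⟩)
      rw [Matrix.det_isEmpty]
      exact one_ne_zero
  have hgood : ∀ b, Cons ((QuotientGroup.mk' (Nb w β b)).comp Coprod.inl : G →* _) := by
    intro b
    induction b with
    | zero =>
      have hk : Nb w β 0 ≤ (Coprod.lift (MonoidHom.id G) (1 : FreeGroup (Fin n) →* G)).ker := by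
        apply Subgroup.normalClosure_le_normal
        rintro _ ⟨j, hj, rfl⟩
        exact absurd hj (Nat.not_lt_zero _)
      have h1 : (QuotientGroup.lift _ _ hk : _ →* G).comp
          ((QuotientGroup.mk' (Nb w β 0)).comp Coprod.inl : G →* _) = MonoidHom.id G := by
        refine MonoidHom.ext fun g => ?_
        change Coprod.lift (MonoidHom.id G) (1 : FreeGroup (Fin n) →* G) (Coprod.inl g) = g
        simp
      have h2 : Cons (MonoidHom.id G) := by
        intro L hL
        have : (MonoidHom.id G : G → G) = id := rfl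
        rwa [this, List.map_id] at hL
      rw [← h1] at h2
      exact h2.of_comp
    | succ b ih =>
      have hlow : ∀ j, β j < b → u j * w j * (u j)⁻¹ ∈ lsub G n {k | β k < b} := by
        intro j hj
        refine lsub_mono (fun i (hi : β i < β j + 1) => ?_) (hwsub j)
        change β i < b
        omega
      have hne : ∀ k ∈ {k : Fin n | β k < b}, β k ≠ b := fun k hk => ne_of_lt hk
      by_cases hII : ∃ j, β j = b ∧ (∀ i, β i = β j → i = j) ∧ ∃ (ε : ℤˣ) (L : List (WG G n)),
          L ≠ [] ∧ (∀ a ∈ L, a ∈ lsub G n {k | β k < β j}) ∧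
          u j * w j * (u j)⁻¹
            = (L.map fun a => a * (Coprod.inr (FreeGroup.of j) : WG G n) ^ (ε : ℤ)).prod
      · obtain ⟨j, hj, hone, ε, L, hL, hLm, hwj⟩ := hII
        subst hj
        refine tower_step w β (β j) (fun _ => 1) (fun _ => 1) u hlow ih
          {Pih w β (β j) (fun _ => 1) (fun _ => 1) (u j * w j * (u j)⁻¹)} ?_ ?_
        · refine levin_cons (⟨j, rfl⟩ : {i : Fin n // β i = β j})
            (L.map (QuotientGroup.mk' (Nb w β (β j)))) (by simpa using hL) ε _ ?_
          rintro r rfl
          rw [hwj, map_list_prod, List.map_map, List.map_map]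
          congr 1
          apply List.map_congr_left
          intro a ha
          simp only [Function.comp_apply]
          rw [map_mul, map_zpow, Pih_low w β (β j) _ _ hne (hLm a ha), Pih_var w β (β j) _ _ rfl]
          simp
        · intro i hi
          rw [hone i hi]
          rfl
      · have hI : ∀ j, β j = b → u j * w j * (u j)⁻¹ ∈
            Subgroup.closure ((A (β j) : Set (WG G n)) ∪
              {z | ∃ i, β i = β j ∧ z = c i * Coprod.inr (FreeGroup.of i) * d i}) := by
          intro j hj
          rcases hw j with h | h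
          · exact h
          · exact absurd ⟨j, hj, h⟩ hII
        let C : Subgroup (WG G n ⧸ Nb w β b) := (A b).map (QuotientGroup.mk' (Nb w β b))
        have hC : ∀ x y : C, ⁅x, y⁆ ∈ Subgroup.center C := by
          rintro ⟨_, x, hx, rfl⟩ ⟨_, y, hy, rfl⟩
          rw [Subgroup.mem_center_iff]
          rintro ⟨_, z, hz, rfl⟩
          have h1 : QuotientGroup.mk' (Nb w β b) ⁅⁅x, y⁆, z⁆ = 1 := by
            rw [← MonoidHom.mem_ker, QuotientGroup.ker_mk']
            exact hA2 b x hx y hy z hz
          rw [map_commutatorElement, commutatorElement_eq_one_iff_mul_comm,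
            map_commutatorElement] at h1
          exact Subtype.ext h1.symm
        let v : {i : Fin n // β i = b} →
            Coprod (WG G n ⧸ Nb w β b) (FreeGroup {i : Fin n // β i = b}) :=
          fun j => Pih w β b c d (u j * w j * (u j)⁻¹)
        refine tower_step w β b c d u hlow ih (Set.range v) ?_ ?_
        · refine coeff_cons C.subtype (QP_of_QK fun m => two_QK hC m) v ?_ ?_
          · have : (Matrix.of fun i j : {i : Fin n // β i = b} =>
                Multiplicative.toAdd (expJ (WG G n ⧸ Nb w β b) i (v j)))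
                = (Matrix.of (fun i j : {i : Fin n // β i = b} =>
                  Multiplicative.toAdd (expJ G (i : Fin n) (w j)))) := by
              ext i j
              simp only [Matrix.of_apply, v]
              rw [expJ_Pih, hexpo]
            change (Matrix.of fun i j : {i : Fin n // β i = b} =>
                Multiplicative.toAdd (expJ (WG G n ⧸ Nb w β b) i (v j))).det ≠ 0
            rw [this]
            exact hblock b
          · rintro ⟨j, hj⟩
            change Pih w β b c d (u j * w j * (u j)⁻¹) ∈ _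
            have h1 : (Subgroup.closure ((A (β j) : Set (WG G n)) ∪
              {z | ∃ i, β i = β j ∧ z = c i * Coprod.inr (FreeGroup.of i) * d i})).map
                (Pih w β b c d) ≤ Subgroup.closure (((fun g : WG G n ⧸ Nb w β b =>
                  (Coprod.inl g : Coprod (WG G n ⧸ Nb w β b)
                    (FreeGroup {i : Fin n // β i = b}))) ''
                  (C.subtype.range : Set _)) ∪ Set.range (fun k : {i : Fin n // β i = b} =>
                  (Coprod.inr (FreeGroup.of k) : Coprod (WG G n ⧸ Nb w β b)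
                    (FreeGroup {i : Fin n // β i = b})))) := by
              rw [Subgroup.map_le_iff_le_comap, Subgroup.closure_le]
              rintro z (hz | ⟨i, hi, rfl⟩)
              · rw [hj] at hz
                apply Subgroup.subset_closure
                left
                refine ⟨QuotientGroup.mk' (Nb w β b) z, ?_, ?_⟩
                · rw [SetLike.mem_coe, Subgroup.range_subtype]
                  exact ⟨z, hz, rfl⟩
                · exact (Pih_low w β b c d hne (hA1 b hz)).symm
              · apply Subgroup.subset_closure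
                right
                refine ⟨⟨i, hi.trans hj⟩, ?_⟩
                exact (Pih_twist w β b c d (hi.trans hj) hne
                  (by rw [← hj, ← hi]; exact hc i) (by rw [← hj, ← hi]; exact hd i)).symm
            exact h1 ⟨_, hI j hj, rfl⟩
        · intro j hj
          exact ⟨⟨j, hj⟩, rfl⟩
  have hN : Subgroup.normalClosure (Set.range w)
      ≤ (QuotientGroup.mk' (Nb w β ((Finset.univ.sup β) + 1))).ker := by
    rw [QuotientGroup.ker_mk']
    apply Subgroup.normalClosure_le_normal
    rintro _ ⟨j, rfl⟩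
    exact Subgroup.subset_normalClosure
      ⟨j, Nat.lt_succ_of_le (Finset.le_sup (Finset.mem_univ j)), rfl⟩
  have h1 := hgood ((Finset.univ.sup β) + 1)
  have h2 : (QuotientGroup.lift _ _ hN : _ →* _).comp
      ((QuotientGroup.mk' (Subgroup.normalClosure (Set.range w))).comp Coprod.inl : G →* _)
      = (QuotientGroup.mk' (Nb w β ((Finset.univ.sup β) + 1))).comp Coprod.inl := rfl
  rw [← h2] at h1
  exact h1.of_comp

end Tower

end Pool.Agent.H76.Planar
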